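import Pool.Agent.Lib.MP_c7af3c_ag.T2.H60.Uniq

/-!
# MP_c7af3c_ag, project T2C: LEMMA H (Hall's condition for one block)
Finding 4191, section 1, in terms of the space `R` of tuples of ternary forms. Only algebra.
-/

set_option autoImplicit false

namespace Pool.Agent.T2C.H11

open MvPolynomial Pool.Agent.Edge.H9.Forms
open Pool.Agent.T2 (S3 mulS mem_mulS)
open Pool.Agent.T2.H60 (finrank_mulS)

section defs

variable {K : Type} [Field K] {c : ℕ}

variable (K) in
/-- the tuples of forms of the degrees `d m` -/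
noncomputable def ST (d : Fin c → ℕ) : Submodule K (Fin c → MvPolynomial (Fin 3) K) :=
  Submodule.pi Set.univ fun m => S3 K (d m)

/-- the tuples `a B`, where `B m` is a form of degree `d m - j` -/
noncomputable def mulST (a : MvPolynomial (Fin 3) K) (d : Fin c → ℕ) (j : ℕ) :
    Submodule K (Fin c → MvPolynomial (Fin 3) K) :=
  Submodule.pi Set.univ fun m => mulS a (d m - j)

/-- the forms of degree `j` all whose multiples are in `R` -/
noncomputable def QQ (R : Submodule K (Fin c → MvPolynomial (Fin 3) K)) (d : Fin c → ℕ)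
    (j : ℕ) : Submodule K (MvPolynomial (Fin 3) K) where
  carrier := {a | a.IsHomogeneous j ∧ ∀ B : Fin c → MvPolynomial (Fin 3) K,
    (∀ m, (B m).IsHomogeneous (d m - j)) → (fun m => a * B m) ∈ R}
  add_mem' := by
    rintro a b ⟨ha, ha'⟩ ⟨hb, hb'⟩
    refine ⟨ha.add hb, fun B hB => ?_⟩
    have h := R.add_mem (ha' B hB) (hb' B hB)
    have e : (fun m => (a + b) * B m) = (fun m => a * B m) + fun m => b * B m := by
      funext m; rw [Pi.add_apply, add_mul]
    rw [e]; exact h
  zero_mem' := ⟨isHomogeneous_zero _ _ _, fun B _ => by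
    have e : (fun m => (0 : MvPolynomial (Fin 3) K) * B m) = 0 := by
      funext m; rw [zero_mul, Pi.zero_apply]
    rw [e]; exact R.zero_mem⟩
  smul_mem' := by
    rintro r a ⟨ha, ha'⟩
    refine ⟨(S3 K j).smul_mem r ha, fun B hB => ?_⟩
    have e : (fun m => (r • a) * B m) = r • fun m => a * B m := by
      funext m; rw [Pi.smul_apply, smul_mul_assoc]
    rw [e]; exact R.smul_mem r (ha' B hB)

end defs

section

variable {K : Type} [Field K] {c : ℕ}

theorem mem_mulST {a : MvPolynomial (Fin 3) K} {d : Fin c → ℕ} {j : ℕ}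
    {g : Fin c → MvPolynomial (Fin 3) K} : g ∈ mulST a d j ↔ ∀ m, g m ∈ mulS a (d m - j) := by
  simp [mulST, Submodule.mem_pi]

theorem mulST_le {R : Submodule K (Fin c → MvPolynomial (Fin 3) K)} {d : Fin c → ℕ} {j : ℕ}
    {a : MvPolynomial (Fin 3) K} (ha : a ∈ QQ R d j) : mulST a d j ≤ R := by
  intro g hg
  rw [mem_mulST] at hg
  choose B hB hB2 using fun m => mem_mulS.1 (hg m)
  have e : g = fun m => a * B m := by funext m; exact (hB2 m).symm
  rw [e]
  exact ha.2 B hB

/-! ### dimensions of products -/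

/-- the product of submodules -/
noncomputable def piE {V : Type} [AddCommGroup V] [Module K V] (A : Fin c → Submodule K V) :
    (Submodule.pi Set.univ A : Submodule K (Fin c → V)) ≃ₗ[K] ((m : Fin c) → A m) where
  toFun f m := ⟨f.1 m, f.2 m trivial⟩
  map_add' _ _ := rfl
  map_smul' _ _ := rfl
  invFun g := ⟨fun m => (g m).1, fun m _ => (g m).2⟩
  left_inv _ := rfl
  right_inv _ := rfl

theorem finrank_piS {V : Type} [AddCommGroup V] [Module K V] (A : Fin c → Submodule K V)
    [∀ m, FiniteDimensional K (A m)] :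
    Module.finrank K (Submodule.pi Set.univ A : Submodule K (Fin c → V)) =
      ∑ m, Module.finrank K (A m) := by
  rw [LinearEquiv.finrank_eq (piE A), Module.finrank_pi_fintype]

instance finite_piS {V : Type} [AddCommGroup V] [Module K V] (A : Fin c → Submodule K V)
    [∀ m, FiniteDimensional K (A m)] :
    FiniteDimensional K (Submodule.pi Set.univ A : Submodule K (Fin c → V)) :=
  LinearEquiv.finiteDimensional (piE A).symm

instance finite_ST (d : Fin c → ℕ) : FiniteDimensional K (ST K d) := by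
  unfold ST; infer_instance

instance finite_mulST (a : MvPolynomial (Fin 3) K) (d : Fin c → ℕ) (j : ℕ) :
    FiniteDimensional K (mulST a d j) := by
  unfold mulST; infer_instance

theorem pi_le {A : Fin c → Submodule K (MvPolynomial (Fin 3) K)}
    {R : Submodule K (Fin c → MvPolynomial (Fin 3) K)}
    (h : ∀ m, ∀ g ∈ A m, Pi.single m g ∈ R) : Submodule.pi Set.univ A ≤ R := by
  intro f hf
  rw [← Finset.univ_sum_single f]
  exact Submodule.sum_mem _ fun m _ => h m _ (hf m trivial)

/-- If `R` contains a product of spaces of codimension at most `e`, the codimension of `R` is at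
most `c e`. -/
theorem codim_le {d : Fin c → ℕ} {e : ℕ} (R : Submodule K (Fin c → MvPolynomial (Fin 3) K))
    (hR : R ≤ ST K d) (A : Fin c → Submodule K (MvPolynomial (Fin 3) K))
    (hA : ∀ m, A m ≤ S3 K (d m))
    (h : ∀ m, (d m + 2).choose 2 ≤ Module.finrank K (A m) + e)
    (hAR : Submodule.pi Set.univ A ≤ R) :
    Module.finrank K (ST K d) ≤ Module.finrank K R + c * e := by
  have _hf : ∀ m, FiniteDimensional K (A m) := fun m =>
    Submodule.finiteDimensional_of_le (hA m)
  have hfR : FiniteDimensional K R := Submodule.finiteDimensional_of_le hR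
  have h1 := Submodule.finrank_mono hAR
  rw [finrank_piS] at h1
  have h2 : Module.finrank K (ST K d) = ∑ m, (d m + 2).choose 2 := by
    rw [ST, finrank_piS]
    exact Finset.sum_congr rfl fun m _ => finrank_hom K (d m)
  rw [h2]
  have h3 : ∑ m, (d m + 2).choose 2 ≤ ∑ m, (Module.finrank K (A m) + e) :=
    Finset.sum_le_sum fun m _ => h m
  rw [Finset.sum_add_distrib, Finset.sum_const, Finset.card_univ, Fintype.card_fin,
    smul_eq_mul] at h3
  omega

/-! ### two forms without common factor -/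

theorem mulS_le_S3 {a : MvPolynomial (Fin 3) K} {e j : ℕ} (ha : a.IsHomogeneous e) (h : e ≤ j) :
    mulS a (j - e) ≤ S3 K j := by
  intro g hg
  obtain ⟨b, hb, rfl⟩ := mem_mulS.1 hg
  have := ha.mul hb
  rw [mem_homogeneousSubmodule]
  rwa [show e + (j - e) = j by omega] at this

theorem finrank_inf_le {a b : MvPolynomial (Fin 3) K} (hab : IsRelPrime a b) {e f j : ℕ}
    (ha : a.IsHomogeneous e) (hb : b.IsHomogeneous f) (ha0 : a ≠ 0) (hb0 : b ≠ 0)
    (he : e ≤ j) :
    Module.finrank K (mulS a (j - e) ⊓ mulS b (j - f) :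
      Submodule K (MvPolynomial (Fin 3) K)) ≤ (j + 2 - (e + f)).choose 2 := by
  have key : ∀ x ∈ (mulS a (j - e) ⊓ mulS b (j - f) : Submodule K (MvPolynomial (Fin 3) K)),
      x ≠ 0 → e + f ≤ j ∧ x ∈ mulS (a * b) (j - (e + f)) := by
    rintro x ⟨h1, h2⟩ hx
    obtain ⟨u, hu, rfl⟩ := mem_mulS.1 h1
    obtain ⟨v, hv, hv2⟩ := mem_mulS.1 h2
    have h4 : b ∣ u := hab.symm.dvd_of_dvd_mul_left ⟨v, hv2.symm⟩
    obtain ⟨w, rfl⟩ := h4
    have h5 : (a * b * w).IsHomogeneous j := by
      have := ha.mul hu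
      rw [show e + (j - e) = j by omega] at this
      rwa [mul_assoc]
    have h6 := hom_quot h5 (ha.mul hb) (by rwa [mul_assoc])
    exact ⟨h6.1, mem_mulS.2 ⟨w, h6.2, by ring⟩⟩
  by_cases hj : e + f ≤ j
  · have h1 : (mulS a (j - e) ⊓ mulS b (j - f) : Submodule K (MvPolynomial (Fin 3) K)) ≤
        mulS (a * b) (j - (e + f)) := by
      intro x hx
      by_cases hx0 : x = 0
      · rw [hx0]; exact Submodule.zero_mem _
      · exact (key x hx hx0).2
    have h2 := Submodule.finrank_mono h1
    rw [finrank_mulS (mul_ne_zero ha0 hb0)] at h2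
    rwa [show j + 2 - (e + f) = j - (e + f) + 2 by omega]
  · have h1 : (mulS a (j - e) ⊓ mulS b (j - f) : Submodule K (MvPolynomial (Fin 3) K)) = ⊥ := by
      rw [Submodule.eq_bot_iff]
      intro x hx
      by_contra hx0
      exact hj (key x hx hx0).1
    rw [h1, finrank_bot]
    exact Nat.zero_le _

theorem choose_eq (e f r : ℕ) :
    (e + f + r).choose 2 + r.choose 2 = (f + r).choose 2 + (e + r).choose 2 + e * f := by
  have h : (((e + f + r).choose 2 + r.choose 2 : ℕ) : ℚ) =
      (((f + r).choose 2 + (e + r).choose 2 + e * f : ℕ) : ℚ) := by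
    push_cast [Nat.cast_choose_two]
    ring
  exact_mod_cast h

/-- the codimension of the multiples of two forms without common factor -/
theorem codim_two {a b : MvPolynomial (Fin 3) K} (hab : IsRelPrime a b) {e f j : ℕ}
    (ha : a.IsHomogeneous e) (hb : b.IsHomogeneous f) (ha0 : a ≠ 0) (hb0 : b ≠ 0)
    (he : e ≤ j) (hf : f ≤ j) (h : e + f ≤ j + 2) :
    (j + 2).choose 2 ≤ Module.finrank K (mulS a (j - e) ⊔ mulS b (j - f) :
      Submodule K (MvPolynomial (Fin 3) K)) + e * f := by
  have h1 := Submodule.finrank_sup_add_finrank_inf_eq (mulS a (j - e)) (mulS b (j - f))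
  rw [finrank_mulS ha0, finrank_mulS hb0] at h1
  have h2 := finrank_inf_le hab ha hb ha0 hb0 he (f := f)
  obtain ⟨r, hr⟩ := Nat.exists_eq_add_of_le h
  have h3 := choose_eq e f r
  rw [hr]
  rw [show j + 2 - (e + f) = r by omega] at h2
  rw [show j - e + 2 = f + r by omega, show j - f + 2 = e + r by omega] at h1
  omega

/-! ### linear forms -/

theorem isUnit_of_hom_zero {x : MvPolynomial (Fin 3) K} (hx : x.IsHomogeneous 0) (h0 : x ≠ 0) :
    IsUnit x := by
  have h1 : x = C (coeff 0 x) := (totalDegree_eq_zero_iff_eq_C).1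
    (Nat.le_zero.1 hx.totalDegree_le)
  rw [h1] at h0 ⊢
  have h2 : coeff 0 x ≠ 0 := fun h => h0 (by rw [h, map_zero])
  exact (isUnit_iff_ne_zero.2 h2).map C

theorem not_isUnit_of_hom {x : MvPolynomial (Fin 3) K} {n : ℕ} (hx : x.IsHomogeneous n)
    (hn : n ≠ 0) : ¬ IsUnit x := by
  intro h
  obtain ⟨y, hy⟩ := h.exists_right_inv
  have h1 : (x * y).IsHomogeneous 0 := by rw [hy]; exact isHomogeneous_one _ _
  have h0 : x * y ≠ 0 := by rw [hy]; exact one_ne_zero
  exact hn (Nat.le_zero.1 (hom_quot h1 hx h0).1)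

theorem irreducible_lin {z : MvPolynomial (Fin 3) K} (hz : z.IsHomogeneous 1) (h0 : z ≠ 0) :
    Irreducible z := by
  refine ⟨not_isUnit_of_hom hz one_ne_zero, fun a b hab => ?_⟩
  rw [hab] at hz h0
  obtain ⟨i, j, hij, ha, hb⟩ := hom_of_mul hz h0
  rcases Nat.eq_zero_or_pos i with hi | hi
  · left
    subst hi
    exact isUnit_of_hom_zero ha (left_ne_zero_of_mul h0)
  · right
    have : j = 0 := by omega
    subst this
    exact isUnit_of_hom_zero hb (right_ne_zero_of_mul h0)

theorem relPrime_lin {z q : MvPolynomial (Fin 3) K} (hz : z.IsHomogeneous 1) (h0 : z ≠ 0)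
    (h : ¬ z ∣ q) : IsRelPrime z q :=
  ((irreducible_lin hz h0).isRelPrime_iff_not_dvd).2 h

theorem mem_mulS_of_dvd {z q : MvPolynomial (Fin 3) K} {e j : ℕ} (hz : z.IsHomogeneous e)
    (hq : q.IsHomogeneous j) (h : z ∣ q) : q ∈ mulS z (j - e) := by
  obtain ⟨b, rfl⟩ := h
  by_cases h0 : z * b = 0
  · rw [h0]; exact Submodule.zero_mem _
  · exact mem_mulS.2 ⟨b, (hom_quot hq hz h0).2, rfl⟩

theorem dvd_of_mem_mulS {z q : MvPolynomial (Fin 3) K} {j : ℕ} (h : q ∈ mulS z j) : z ∣ q := by
  obtain ⟨b, _, rfl⟩ := mem_mulS.1 h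
  exact dvd_mul_right z b

/-- a vector space is not a union of two proper subspaces -/
theorem le_or_le {V : Type} [AddCommGroup V] [Module K V] {W A B : Submodule K V}
    (h : ∀ w ∈ W, w ∈ A ∨ w ∈ B) : W ≤ A ∨ W ≤ B := by
  by_contra hcon
  rw [not_or] at hcon
  obtain ⟨hA, hB⟩ := hcon
  obtain ⟨v, hv, hvA⟩ := Set.not_subset.1 hA
  obtain ⟨w, hw, hwB⟩ := Set.not_subset.1 hB
  have hvB : v ∈ B := (h v hv).resolve_left hvA
  have hwA : w ∈ A := (h w hw).resolve_right hwB
  rcases h (v + w) (W.add_mem hv hw) with h1 | h1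
  · exact hvA ((A.add_mem_iff_left hwA).1 h1)
  · exact hwB ((B.add_mem_iff_right hvB).1 h1)

/-- a space of conics without coprime elements has a common linear factor -/
theorem pencil {V : Submodule K (MvPolynomial (Fin 3) K)} (hV : V ≤ S3 K 2)
    (h2 : 2 ≤ Module.finrank K V) :
    (∃ a ∈ V, ∃ b ∈ V, a ≠ 0 ∧ b ≠ 0 ∧ IsRelPrime a b) ∨
    ∃ z : MvPolynomial (Fin 3) K, z.IsHomogeneous 1 ∧ z ≠ 0 ∧ V ≤ mulS z 1 := by
  by_contra hcon
  rw [not_or] at hcon
  obtain ⟨hc1, hc2⟩ := hcon
  have hc1' : ∀ a ∈ V, ∀ b ∈ V, a ≠ 0 → b ≠ 0 → ¬ IsRelPrime a b := fun a ha b hb h h' h'' =>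
    hc1 ⟨a, ha, b, hb, h, h', h''⟩
  have hfV : FiniteDimensional K V := Submodule.finiteDimensional_of_le hV
  obtain ⟨q, hq, hq0⟩ : ∃ q ∈ V, q ≠ 0 := by
    by_contra h
    push Not at h
    have : V = ⊥ := (Submodule.eq_bot_iff V).2 h
    rw [this, finrank_bot] at h2
    omega
  have hq2 : q.IsHomogeneous 2 := hV hq
  by_cases hirr : Irreducible q
  · -- `q` is irreducible
    have h3 : ¬ V ≤ Submodule.span K {q} := by
      intro h
      have h4 := Submodule.finrank_mono h
      have h5 := finrank_span_le_card (R := K) ({q} : Set (MvPolynomial (Fin 3) K))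
      rw [Set.toFinset_singleton, Finset.card_singleton] at h5
      omega
    obtain ⟨b, hb, hb2⟩ := Set.not_subset.1 h3
    have hb0 : b ≠ 0 := by
      rintro rfl
      exact hb2 (Submodule.zero_mem _)
    refine hc1' q hq b hb hq0 hb0 ((hirr.isRelPrime_iff_not_dvd).2 fun hd => hb2 ?_)
    obtain ⟨s, rfl⟩ := hd
    have h4 := (hom_quot (hV hb) hq2 hb0).2
    have h5 : s = C (coeff 0 s) := (totalDegree_eq_zero_iff_eq_C).1
      (Nat.le_zero.1 (IsHomogeneous.totalDegree_le h4))
    rw [h5, mul_comm, ← smul_eq_C_mul]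
    exact Submodule.smul_mem _ _ (Submodule.mem_span_singleton_self q)
  · -- `q` is a product of two linear forms
    rw [irreducible_iff] at hirr
    push Not at hirr
    obtain ⟨l, m, hlm, hl, hm⟩ := hirr (not_isUnit_of_hom hq2 two_ne_zero)
    rw [hlm] at hq2 hq0
    obtain ⟨i, j, hij, hli, hmj⟩ := hom_of_mul hq2 hq0
    have hl0 := left_ne_zero_of_mul hq0
    have hm0 := right_ne_zero_of_mul hq0
    have hi : i ≠ 0 := by rintro rfl; exact hl (isUnit_of_hom_zero hli hl0)
    have hj : j ≠ 0 := by rintro rfl; exact hm (isUnit_of_hom_zero hmj hm0)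
    have hi1 : i = 1 := by omega
    have hj1 : j = 1 := by omega
    subst hi1 hj1
    have h3 : ∀ b ∈ V, b ∈ mulS l 1 ∨ b ∈ mulS m 1 := by
      intro b hb
      by_cases hb0 : b = 0
      · left; rw [hb0]; exact Submodule.zero_mem _
      by_contra hcon
      rw [not_or] at hcon
      have h4 : ¬ l ∣ b := fun h => hcon.1 (mem_mulS_of_dvd hli (hV hb) h)
      have h5 : ¬ m ∣ b := fun h => hcon.2 (mem_mulS_of_dvd hmj (hV hb) h)
      refine hc1' q hq b hb (by rwa [hlm]) hb0 ?_
      rw [hlm]
      exact IsRelPrime.mul_left (relPrime_lin hli hl0 h4) (relPrime_lin hmj hm0 h5)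
    rcases le_or_le h3 with h4 | h4
    · exact hc2 ⟨l, hli, hl0, h4⟩
    · exact hc2 ⟨m, hmj, hm0, h4⟩

/-! ### the saturation of two conics -/

theorem X_dvd_of_mul {i j : Fin 3} (hij : i ≠ j) {s t : MvPolynomial (Fin 3) K}
    (h : X i * s = X j * t) : ∃ r, s = X j * r ∧ t = X i * r := by
  have hp : Prime (X j : MvPolynomial (Fin 3) K) :=
    (irreducible_lin (isHomogeneous_X K j) (X_ne_zero j)).prime
  have h1 : X j ∣ X i * s := ⟨t, h⟩
  have h2 : ¬ (X j : MvPolynomial (Fin 3) K) ∣ X i := by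
    rw [X_dvd_X]
    exact fun h => hij h.symm
  obtain ⟨r, rfl⟩ := (hp.dvd_or_dvd h1).resolve_left h2
  refine ⟨r, rfl, mul_left_cancel₀ hp.ne_zero ?_⟩
  rw [← h]; ring

/-- exactness of the Koszul complex in three variables -/
theorem koszul {s0 s1 s2 : MvPolynomial (Fin 3) K} (h : X 0 * s0 + X 1 * s1 + X 2 * s2 = 0) :
    ∃ e0 e1 e2 : MvPolynomial (Fin 3) K, s0 = X 2 * e1 - X 1 * e2 ∧ s1 = X 0 * e2 - X 2 * e0 ∧
      s2 = X 1 * e0 - X 0 * e1 := by
  have h1 : s0 ∈ Ideal.span (X '' ({1, 2} : Set (Fin 3)) : Set (MvPolynomial (Fin 3) K)) := by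
    have h2 : X 0 * s0 ∈ Ideal.span
        (X '' ({1, 2} : Set (Fin 3)) : Set (MvPolynomial (Fin 3) K)) := by
      have e : X 0 * s0 = s1 * (- X 1) + s2 * (- X 2) := by linear_combination h
      rw [e]
      refine Ideal.add_mem _ (Ideal.mul_mem_left _ _ (neg_mem (Ideal.subset_span ⟨1, ?_, rfl⟩)))
        (Ideal.mul_mem_left _ _ (neg_mem (Ideal.subset_span ⟨2, ?_, rfl⟩)))
      · simp
      · simp
    rw [mem_ideal_span_X_image] at h2 ⊢
    intro m hm
    obtain ⟨i, hi, hmi⟩ := h2 (Finsupp.single 0 1 + m) (by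
      rw [mem_support_iff, mul_comm, add_comm, coeff_mul_X]
      exact mem_support_iff.1 hm)
    refine ⟨i, hi, ?_⟩
    rw [Finsupp.add_apply, Finsupp.single_apply, if_neg, zero_add] at hmi
    · exact hmi
    · rintro rfl
      simp at hi
  rw [Set.image_pair, Ideal.mem_span_pair] at h1
  obtain ⟨a, b, hab⟩ := h1
  have h3 : X 1 * (X 0 * a + s1) = X 2 * (-(X 0 * b + s2)) := by
    linear_combination h + X 0 * hab
  obtain ⟨r, hr1, hr2⟩ := X_dvd_of_mul (by decide) h3
  refine ⟨-r, b, -a, ?_, ?_, ?_⟩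
  · rw [← hab]; ring
  · linear_combination hr1
  · linear_combination - hr2

theorem sat_one {a b f : MvPolynomial (Fin 3) K} (hab : IsRelPrime a b) (hb0 : b ≠ 0)
    (h : ∀ i, X i * f ∈ Ideal.span {a, b}) : f ∈ Ideal.span {a, b} := by
  choose u v huv using fun i => Ideal.mem_span_pair.1 (h i)
  -- `huv i : u i * a + v i * b = X i * f`
  have h1 : ∀ i j, ∃ s, X j * u i - X i * u j = b * s := by
    intro i j
    have h2 : b ∣ (X j * u i - X i * u j) * a := by
      refine ⟨X i * v j - X j * v i, ?_⟩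
      linear_combination X j * huv i - X i * huv j
    exact hab.symm.dvd_of_dvd_mul_right h2
  obtain ⟨s2, hs2⟩ := h1 0 1
  obtain ⟨s0, hs0⟩ := h1 1 2
  obtain ⟨s1, hs1⟩ := h1 2 0
  have h3 : X 0 * s0 + X 1 * s1 + X 2 * s2 = 0 := by
    apply mul_left_cancel₀ hb0
    linear_combination (- X 0) * hs0 - X 1 * hs1 - X 2 * hs2
  obtain ⟨e0, e1, e2, k0, k1, k2⟩ := koszul h3
  -- X 1 * (u 0 - b * e0) = X 0 * (u 1 - b * e1), ..
  have h4 : X 1 * (u 0 - b * e0) = X 0 * (u 1 - b * e1) := by
    linear_combination hs2 + b * k2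
  have h5 : X 2 * (u 1 - b * e1) = X 1 * (u 2 - b * e2) := by
    linear_combination hs0 + b * k0
  obtain ⟨r, hr0, hr1⟩ := X_dvd_of_mul (by decide) h4
  -- `f - r a` times `X 0`, `X 1` is a multiple of `b`
  have h6 : X 0 * (f - r * a) = b * (e0 * a + v 0) := by
    linear_combination - huv 0 + a * hr0
  have h7 : X 1 * (f - r * a) = b * (e1 * a + v 1) := by
    linear_combination - huv 1 + a * hr1
  have h8 : X 1 * (e0 * a + v 0) = X 0 * (e1 * a + v 1) := by
    apply mul_left_cancel₀ hb0
    linear_combination X 0 * h7 - X 1 * h6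
  obtain ⟨w, hw0, -⟩ := X_dvd_of_mul (by decide) h8
  rw [hw0] at h6
  have h9 : f - r * a = b * w := by
    apply mul_left_cancel₀ (X_ne_zero (R := K) (0 : Fin 3))
    rw [h6]; ring
  rw [Ideal.mem_span_pair]
  exact ⟨r, w, by linear_combination - h9⟩

theorem sat_pow {a b : MvPolynomial (Fin 3) K} (hab : IsRelPrime a b) (hb0 : b ≠ 0) (n : ℕ) : ∀ f : MvPolynomial (Fin 3) K,
    (∀ m : MvPolynomial (Fin 3) K, m.IsHomogeneous n → f * m ∈ Ideal.span {a, b}) →
    f ∈ Ideal.span {a, b} := by
  induction n with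
  | zero =>
    intro f h
    have := h 1 (isHomogeneous_one _ _)
    rwa [mul_one] at this
  | succ n ih =>
    intro f h
    refine sat_one hab hb0 fun i => ih _ fun m hm => ?_
    have h1 := h (X i * m) (by
      have := (isHomogeneous_X K i).mul hm
      rwa [add_comm] at this)
    have e : X i * f * m = f * (X i * m) := by ring
    rwa [e]

/-- the constant term of a multiplier -/
theorem hc_mul {q a : MvPolynomial (Fin 3) K} (hq : q.IsHomogeneous 2) :
    homogeneousComponent 2 (a * q) = C (coeff 0 a) * q := by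
  rw [← homT_coeff, map_mul, homT_of_hom hq, ← Polynomial.C_mul_X_pow_eq_monomial, ← mul_assoc,
    Polynomial.coeff_mul_X_pow', if_pos le_rfl, Nat.sub_self, Polynomial.mul_coeff_zero,
    Polynomial.coeff_C_zero, homT_coeff, homogeneousComponent_zero]

theorem mem_span_of_ideal {a b q : MvPolynomial (Fin 3) K} (ha : a.IsHomogeneous 2)
    (hb : b.IsHomogeneous 2) (hq : q.IsHomogeneous 2) (h : q ∈ Ideal.span {a, b}) :
    q ∈ Submodule.span K {a, b} := by
  obtain ⟨u, v, huv⟩ := Ideal.mem_span_pair.1 h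
  have h1 : homogeneousComponent 2 q = q :=
    homogeneousComponent_of_mem ((mem_homogeneousSubmodule _ _).2 hq) |>.trans (if_pos rfl)
  rw [← huv, map_add, hc_mul ha, hc_mul hb, huv] at h1
  rw [Submodule.mem_span_pair]
  exact ⟨coeff 0 u, coeff 0 v, by rw [smul_eq_C_mul, smul_eq_C_mul, h1]⟩

/-- three independent conics, two of them without common factor -/
theorem codim_three {a b q : MvPolynomial (Fin 3) K} (hab : IsRelPrime a b)
    (ha : a.IsHomogeneous 2) (hb : b.IsHomogeneous 2) (ha0 : a ≠ 0) (hb0 : b ≠ 0)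
    (hq : q.IsHomogeneous 2) (hqs : q ∉ Submodule.span K {a, b}) {j : ℕ} (hj : 2 ≤ j) :
    (j + 2).choose 2 ≤ Module.finrank K (mulS a (j - 2) ⊔ mulS b (j - 2) ⊔ mulS q (j - 2) :
      Submodule K (MvPolynomial (Fin 3) K)) + 3 := by
  have h1 := codim_two hab ha hb ha0 hb0 hj hj (by omega)
  have h2 : (mulS a (j - 2) ⊔ mulS b (j - 2) : Submodule K (MvPolynomial (Fin 3) K)) <
      mulS a (j - 2) ⊔ mulS b (j - 2) ⊔ mulS q (j - 2) := by
    refine lt_of_le_of_ne le_sup_left fun h => hqs ?_
    refine mem_span_of_ideal ha hb hq (sat_pow hab hb0 (j - 2) q fun m hm => ?_)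
    have h3 : q * m ∈ (mulS a (j - 2) ⊔ mulS b (j - 2) :
        Submodule K (MvPolynomial (Fin 3) K)) := by
      rw [h]
      exact Submodule.mem_sup_right (mem_mulS.2 ⟨m, hm, rfl⟩)
    obtain ⟨u, hu, v, hv, huv⟩ := Submodule.mem_sup.1 h3
    obtain ⟨u', _, rfl⟩ := mem_mulS.1 hu
    obtain ⟨v', _, rfl⟩ := mem_mulS.1 hv
    rw [← huv]
    rw [Ideal.mem_span_pair]
    exact ⟨u', v', by ring⟩
  have hfd : FiniteDimensional K (mulS a (j - 2) ⊔ mulS b (j - 2) ⊔ mulS q (j - 2) :
      Submodule K (MvPolynomial (Fin 3) K)) := by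
    infer_instance
  have h3 := Submodule.finrank_lt_finrank_of_lt h2
  omega

/-! ### Hall's condition -/

theorem mem_QQ {R : Submodule K (Fin c → MvPolynomial (Fin 3) K)} {d : Fin c → ℕ} {j : ℕ}
    {a : MvPolynomial (Fin 3) K} : a ∈ QQ R d j ↔ a.IsHomogeneous j ∧
      ∀ B : Fin c → MvPolynomial (Fin 3) K, (∀ m, (B m).IsHomogeneous (d m - j)) →
        (fun m => a * B m) ∈ R := Iff.rfl

theorem QQ_le (R : Submodule K (Fin c → MvPolynomial (Fin 3) K)) (d : Fin c → ℕ) (j : ℕ) :
    QQ R d j ≤ S3 K j := fun _ h => h.1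

theorem single_mem {R : Submodule K (Fin c → MvPolynomial (Fin 3) K)} {d : Fin c → ℕ} {j : ℕ}
    {a : MvPolynomial (Fin 3) K} (ha : a ∈ QQ R d j) (m : Fin c) {g : MvPolynomial (Fin 3) K}
    (hg : g ∈ mulS a (d m - j)) : Pi.single m g ∈ R := by
  refine mulST_le ha (mem_mulST.2 fun m' => ?_)
  by_cases h : m' = m
  · subst h
    rwa [Pi.single_eq_same]
  · rw [Pi.single_eq_of_ne h]
    exact Submodule.zero_mem _

/-- the multiples of a linear form whose multiples are in `R` -/
theorem QQ_one_two {R : Submodule K (Fin c → MvPolynomial (Fin 3) K)} {d : Fin c → ℕ}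
    (hd : ∀ m, 2 ≤ d m) {z : MvPolynomial (Fin 3) K} (hz : z ∈ QQ R d 1) :
    mulS z 1 ≤ QQ R d 2 := by
  intro q hq
  obtain ⟨b, hb, rfl⟩ := mem_mulS.1 hq
  refine ⟨hz.1.mul hb, fun B hB => ?_⟩
  have h := hz.2 (fun m => b * B m) fun m => by
    have := IsHomogeneous.mul hb (hB m)
    have hm := hd m
    rwa [show 1 + (d m - 2) = d m - 1 by omega] at this
  have e : (fun m => z * b * B m) = fun m => z * (b * B m) := by
    funext m; rw [mul_assoc]
  rw [e]; exact h

/-- and conversely -/
theorem QQ_two_one {R : Submodule K (Fin c → MvPolynomial (Fin 3) K)} {d : Fin c → ℕ}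
    (hd : ∀ m, 2 ≤ d m) {z : MvPolynomial (Fin 3) K} (hz : z.IsHomogeneous 1)
    (h : mulS z 1 ≤ QQ R d 2) : z ∈ QQ R d 1 := by
  have h1 : ∀ m, ∀ g ∈ mulS z (d m - 1), Pi.single m g ∈ R := by
    intro m g hg
    obtain ⟨b, hb, rfl⟩ := mem_mulS.1 hg
    have hm := hd m
    -- `b` is a sum of `X i * b_i`
    have h2 : b ∈ Submodule.span K {u | ∃ (i : Fin 3) (v : MvPolynomial (Fin 3) K),
        v.IsHomogeneous (d m - 2) ∧ u = X i * v} := by
      rw [← support_sum_monomial_coeff b]
      refine Submodule.sum_mem _ fun I hI => Submodule.subset_span ?_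
      have h3 : I.degree = d m - 1 := by
        by_contra h4
        exact (mem_support_iff.1 hI) (IsHomogeneous.coeff_eq_zero hb h4)
      have h4 : ∃ i, I i ≠ 0 := by
        by_contra h5
        push Not at h5
        have : I = 0 := Finsupp.ext h5
        rw [this, map_zero] at h3
        omega
      obtain ⟨i, hi⟩ := h4
      have h5 : Finsupp.single i 1 + (I - Finsupp.single i 1) = I := by
        refine add_tsub_cancel_of_le ?_
        rw [Finsupp.single_le_iff]
        omega
      refine ⟨i, monomial (I - Finsupp.single i 1) (coeff I b), ?_, ?_⟩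
      · refine isHomogeneous_monomial _ ?_
        have h6 : (Finsupp.single i 1 + (I - Finsupp.single i 1)).degree = d m - 1 := by
          rw [h5, h3]
        rw [map_add, Finsupp.degree_single] at h6
        omega
      · rw [X, monomial_mul, one_mul, h5]
    refine Submodule.span_induction (p := fun u _ => Pi.single m (z * u) ∈ R) ?_ ?_ ?_ ?_ h2
    · rintro u ⟨i, v, hv, rfl⟩
      rw [← mul_assoc]
      refine single_mem (h (mem_mulS.2 ⟨X i, isHomogeneous_X K i, rfl⟩)) m
        (mem_mulS.2 ⟨v, hv, rfl⟩)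
    · rw [mul_zero, Pi.single_zero]; exact R.zero_mem
    · intro u v _ _ hu hv
      rw [mul_add, Pi.single_add]; exact R.add_mem hu hv
    · intro r u _ hu
      rw [mul_smul_comm, Pi.single_smul]; exact R.smul_mem r hu
  refine ⟨hz, fun B hB => ?_⟩
  refine pi_le (A := fun m => mulS z (d m - 1)) h1 ?_
  intro m _
  exact mem_mulS.2 ⟨B m, hB m, rfl⟩

theorem single_sup {R : Submodule K (Fin c → MvPolynomial (Fin 3) K)}
    {m : Fin c} {A : Submodule K (MvPolynomial (Fin 3) K)} {B : Submodule K
      (MvPolynomial (Fin 3) K)} (hA : ∀ g ∈ A, Pi.single m g ∈ R)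
    (hB : ∀ g ∈ B, Pi.single m g ∈ R) : ∀ g ∈ A ⊔ B, Pi.single m g ∈ R := by
  intro g hg
  obtain ⟨u, hu, v, hv, rfl⟩ := Submodule.mem_sup.1 hg
  rw [Pi.single_add]
  exact R.add_mem (hA u hu) (hB v hv)

theorem finrank_S3 (j : ℕ) : Module.finrank K (S3 K j) = (j + 2).choose 2 := finrank_hom K j

instance finite_QQ (R : Submodule K (Fin c → MvPolynomial (Fin 3) K)) (d : Fin c → ℕ) (j : ℕ) :
    FiniteDimensional K (QQ R d j) := Submodule.finiteDimensional_of_le (QQ_le R d j)

theorem exists_ne {V : Type} [AddCommGroup V] [Module K V] {W : Submodule K V}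
    (h : 1 ≤ Module.finrank K W) : ∃ a ∈ W, a ≠ 0 := by
  by_contra hcon
  push Not at hcon
  rw [(Submodule.eq_bot_iff W).2 hcon, finrank_bot] at h
  omega

theorem exists_not_mem {V : Type} [AddCommGroup V] [Module K V] {W : Submodule K V}
    (h : 2 ≤ Module.finrank K W) (a : V) : ∃ b ∈ W, b ∉ Submodule.span K {a} := by
  have h3 : ¬ W ≤ Submodule.span K {a} := by
    intro h'
    have h4 := Submodule.finrank_mono h'
    have h5 := finrank_span_le_card (R := K) ({a} : Set V)
    rw [Set.toFinset_singleton, Finset.card_singleton] at h5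
    omega
  obtain ⟨b, hb, hb2⟩ := Set.not_subset.1 h3
  exact ⟨b, hb, hb2⟩

theorem finrank_le_two {V : Type} [AddCommGroup V] [Module K V] {W : Submodule K V} {a b : V}
    (h : W ≤ Submodule.span K {a, b}) : Module.finrank K W ≤ 2 := by
  have e : ({a, b} : Set V) = Set.range ![a, b] := by
    ext x
    simp only [Set.mem_insert_iff, Set.mem_singleton_iff, Set.mem_range, Fin.exists_fin_two,
      Matrix.cons_val_zero, Matrix.cons_val_one]
    exact ⟨fun h => h.elim (fun h => Or.inl h.symm) fun h => Or.inr h.symm,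
      fun h => h.elim (fun h => Or.inl h.symm) fun h => Or.inr h.symm⟩
  have hf : FiniteDimensional K (Submodule.span K ({a, b} : Set V)) :=
    FiniteDimensional.span_of_finite K (Set.toFinite _)
  refine (Submodule.finrank_mono h).trans ?_
  rw [e]
  exact (finrank_range_le_card (R := K) ![a, b]).trans (by simp)

theorem not_dvd_of_not_mem {a b : MvPolynomial (Fin 3) K} {n : ℕ} (ha : a.IsHomogeneous n)
    (hb : b.IsHomogeneous n) (h : b ∉ Submodule.span K {a}) : ¬ a ∣ b := by
  rintro ⟨s, rfl⟩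
  have h0 : a * s ≠ 0 := by
    intro h0
    rw [h0] at h
    exact h (Submodule.zero_mem _)
  have h4 := (hom_quot hb ha h0).2
  rw [Nat.sub_self] at h4
  have h5 : s = C (coeff 0 s) := (totalDegree_eq_zero_iff_eq_C).1
    (Nat.le_zero.1 (IsHomogeneous.totalDegree_le h4))
  apply h
  rw [h5, mul_comm, ← smul_eq_C_mul]
  exact Submodule.smul_mem _ _ (Submodule.mem_span_singleton_self a)

theorem finrank_QQ_le {R : Submodule K (Fin c → MvPolynomial (Fin 3) K)} {d : Fin c → ℕ}
    (hd : ∀ m, 2 ≤ d m) (h : Module.finrank K (QQ R d 1) ≤ 2) :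
    Module.finrank K (QQ R d 2) ≤ 5 := by
  by_contra hcon
  have e1 : Module.finrank K (S3 K 2) = 6 := by rw [finrank_S3]; decide
  have h1 : QQ R d 2 = S3 K 2 := Submodule.eq_of_le_of_finrank_le (QQ_le R d 2) (by omega)
  have h2 : S3 K 1 ≤ QQ R d 1 := by
    intro z hz
    refine QQ_two_one hd hz ?_
    rw [h1]
    exact mulS_le_S3 (j := 2) hz (by omega)
  have h3 := Submodule.finrank_mono h2
  have e2 : Module.finrank K (S3 K 1) = 3 := by rw [finrank_S3]; decide
  omega

/-- **LEMMA H.** Hall's condition: if `R` has codimension `3c + 5`, `R` contains all multiples of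
no conic and `R + z S'` has codimension at most `2c + 2` for every line, then for every larger
`R'` of codimension at least `c + 1` the number of conditions is at least `dim R' / R`. -/
theorem hall {d : Fin c → ℕ} (hd : ∀ m, 2 ≤ d m) (hc : c ≤ 3)
    {R : Submodule K (Fin c → MvPolynomial (Fin 3) K)}
    (hdim : Module.finrank K (ST K d) = Module.finrank K R + (3 * c + 5))
    (hL : ∀ z : MvPolynomial (Fin 3) K, z.IsHomogeneous 1 → z ≠ 0 →
      Module.finrank K (ST K d) ≤ Module.finrank K (R ⊔ mulST z d 1 :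
        Submodule K (Fin c → MvPolynomial (Fin 3) K)) + (2 * c + 2))
    (hC : ∀ q ∈ QQ R d 2, q = 0)
    {R' : Submodule K (Fin c → MvPolynomial (Fin 3) K)} (h1 : R ≤ R') (h2 : R' ≤ ST K d)
    (h3 : Module.finrank K R' + (c + 1) ≤ Module.finrank K (ST K d)) :
    Module.finrank K (QQ R' d 2) + c * Module.finrank K (QQ R' d 1) + Module.finrank K R ≤
      Module.finrank K R' := by
  have hfR' : FiniteDimensional K R' := Submodule.finiteDimensional_of_le h2
  have hle := Submodule.finrank_mono h1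
  by_contra hcon
  by_cases hl2 : 2 ≤ Module.finrank K (QQ R' d 1)
  · -- two linear forms
    obtain ⟨z, hz, hz0⟩ := exists_ne (show 1 ≤ Module.finrank K (QQ R' d 1) by omega)
    obtain ⟨z', hz', hzz⟩ := exists_not_mem hl2 z
    have hz0' : z' ≠ 0 := by rintro rfl; exact hzz (Submodule.zero_mem _)
    have hcop := relPrime_lin hz.1 hz0 (not_dvd_of_not_mem hz.1 hz'.1 hzz)
    have h5 := codim_le (e := 1) R' h2 (fun m => mulS z (d m - 1) ⊔ mulS z' (d m - 1))
      (fun m => sup_le (mulS_le_S3 hz.1 (by have := hd m; omega))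
        (mulS_le_S3 hz'.1 (by have := hd m; omega)))
      (fun m => by
        have hm := hd m
        have := codim_two hcop hz.1 hz'.1 hz0 hz0' (j := d m) (by omega) (by omega) (by omega)
        simpa using this)
      (pi_le fun m => single_sup (fun g hg => single_mem hz m hg)
        (fun g hg => single_mem hz' m hg))
    omega
  have hg5 := finrank_QQ_le (R := R') hd (by omega)
  by_cases hl1 : 1 ≤ Module.finrank K (QQ R' d 1)
  · -- one linear form
    have hl : Module.finrank K (QQ R' d 1) = 1 := by omega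
    obtain ⟨z, hz, hz0⟩ := exists_ne hl1
    rw [hl, mul_one] at hcon
    by_cases hq : QQ R' d 2 ≤ mulS z 1
    · have h5 := Submodule.finrank_mono hq
      rw [finrank_mulS hz0] at h5
      have e1 : (1 + 2).choose 2 = 3 := by decide
      rw [e1] at h5
      have h6 := hL z hz.1 hz0
      have h7 : (R ⊔ mulST z d 1 : Submodule K (Fin c → MvPolynomial (Fin 3) K)) ≤ R' :=
        sup_le h1 (mulST_le hz)
      have h8 := Submodule.finrank_mono h7
      omega
    · obtain ⟨q, hq, hqz⟩ := Set.not_subset.1 hq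
      have hndvd : ¬ z ∣ q := fun h => hqz (mem_mulS_of_dvd hz.1 (QQ_le _ _ _ hq) h)
      have hq0 : q ≠ 0 := by rintro rfl; exact hndvd (dvd_zero z)
      have hcop := relPrime_lin hz.1 hz0 hndvd
      have h5 := codim_le (e := 2) R' h2 (fun m => mulS z (d m - 1) ⊔ mulS q (d m - 2))
        (fun m => sup_le (mulS_le_S3 hz.1 (by have := hd m; omega))
          (mulS_le_S3 (QQ_le _ _ _ hq) (hd m)))
        (fun m => by
          have hm := hd m
          have := codim_two hcop hz.1 (QQ_le _ _ _ hq) hz0 hq0 (j := d m) (by omega) (by omega)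
            (by omega)
          simpa using this)
        (pi_le fun m => single_sup (fun g hg => single_mem hz m hg)
          (fun g hg => single_mem hq m hg))
      omega
  have hl : Module.finrank K (QQ R' d 1) = 0 := by omega
  rw [hl, mul_zero, add_zero] at hcon
  by_cases hg2 : 2 ≤ Module.finrank K (QQ R' d 2)
  · rcases pencil (QQ_le R' d 2) hg2 with ⟨a, ha, b, hb, ha0, hb0, hab⟩ | ⟨z, hz, hz0, hzV⟩
    · by_cases hq : QQ R' d 2 ≤ Submodule.span K {a, b}
      · have h6 := finrank_le_two hq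
        have h5 := codim_le (e := 4) R' h2 (fun m => mulS a (d m - 2) ⊔ mulS b (d m - 2))
          (fun m => sup_le (mulS_le_S3 ha.1 (hd m)) (mulS_le_S3 hb.1 (hd m)))
          (fun m => by
            have hm := hd m
            have := codim_two hab ha.1 hb.1 ha0 hb0 (j := d m) (by omega) (by omega) (by omega)
            simpa using this)
          (pi_le fun m => single_sup (fun g hg => single_mem ha m hg)
            (fun g hg => single_mem hb m hg))
        omega
      · obtain ⟨q, hq, hqs⟩ := Set.not_subset.1 hq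
        have h5 := codim_le (e := 3) R' h2
          (fun m => mulS a (d m - 2) ⊔ mulS b (d m - 2) ⊔ mulS q (d m - 2))
          (fun m => sup_le (sup_le (mulS_le_S3 ha.1 (hd m)) (mulS_le_S3 hb.1 (hd m)))
            (mulS_le_S3 (QQ_le _ _ _ hq) (hd m)))
          (fun m => codim_three hab ha.1 hb.1 ha0 hb0 (QQ_le _ _ _ hq) hqs (hd m))
          (pi_le fun m => single_sup (single_sup (fun g hg => single_mem ha m hg)
            (fun g hg => single_mem hb m hg)) (fun g hg => single_mem hq m hg))
        omega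
    · -- a common linear factor
      have hg3 : Module.finrank K (QQ R' d 2) ≤ 2 := by
        by_contra hg3
        have h5 : QQ R' d 2 = mulS z 1 := by
          refine Submodule.eq_of_le_of_finrank_le hzV ?_
          rw [finrank_mulS hz0]
          have e1 : (1 + 2).choose 2 = 3 := by decide
          omega
        have h6 : z ∈ QQ R' d 1 := QQ_two_one hd hz h5.ge
        rw [Submodule.finrank_eq_zero.1 hl] at h6
        exact hz0 h6
      obtain ⟨a, ha, ha0⟩ := exists_ne (show 1 ≤ Module.finrank K (QQ R' d 2) by omega)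
      obtain ⟨b, hb, hba⟩ := exists_not_mem hg2 a
      obtain ⟨m1, hm1, rfl⟩ := mem_mulS.1 (hzV ha)
      obtain ⟨m2, hm2, rfl⟩ := mem_mulS.1 (hzV hb)
      have hm10 : m1 ≠ 0 := right_ne_zero_of_mul ha0
      have hm20 : m2 ≠ 0 := by
        rintro rfl
        rw [mul_zero] at hba
        exact hba (Submodule.zero_mem _)
      have hcop : IsRelPrime m1 m2 := by
        refine relPrime_lin hm1 hm10 (not_dvd_of_not_mem hm1 hm2 fun h => hba ?_)
        obtain ⟨s, rfl⟩ := Submodule.mem_span_singleton.1 h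
        rw [mul_smul_comm]
        exact Submodule.smul_mem _ _ (Submodule.mem_span_singleton_self _)
      have h5 : Module.finrank K (mulST z d 1) ≤
          Module.finrank K (R' ⊓ mulST z d 1 :
            Submodule K (Fin c → MvPolynomial (Fin 3) K)) + c := by
        have h6 : (Submodule.pi Set.univ fun m => (mulS m1 (d m - 1 - 1) ⊔
            mulS m2 (d m - 1 - 1)).map (mulL z)) ≤ R' ⊓ mulST z d 1 := by
          refine pi_le fun m g hg => ?_
          obtain ⟨u, hu, rfl⟩ := hg
          obtain ⟨u1, hu1, u2, hu2, rfl⟩ := Submodule.mem_sup.1 hu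
          obtain ⟨v1, hv1, rfl⟩ := mem_mulS.1 hu1
          obtain ⟨v2, hv2, rfl⟩ := mem_mulS.1 hu2
          rw [show d m - 1 - 1 = d m - 2 by omega] at hv1 hv2
          rw [mulL_apply, mul_add, Pi.single_add]
          have hm := hd m
          refine Submodule.add_mem _ ⟨?_, ?_⟩ ⟨?_, ?_⟩
          · rw [← mul_assoc]
            exact single_mem ha m (mem_mulS.2 ⟨v1, hv1, rfl⟩)
          · refine mem_mulST.2 fun m' => ?_
            by_cases h : m' = m
            · subst h
              rw [Pi.single_eq_same]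
              refine mem_mulS.2 ⟨m1 * v1, ?_, rfl⟩
              have := IsHomogeneous.mul hm1 hv1
              rwa [show 1 + (d m' - 2) = d m' - 1 by omega] at this
            · rw [Pi.single_eq_of_ne h]
              exact Submodule.zero_mem _
          · rw [← mul_assoc]
            exact single_mem hb m (mem_mulS.2 ⟨v2, hv2, rfl⟩)
          · refine mem_mulST.2 fun m' => ?_
            by_cases h : m' = m
            · subst h
              rw [Pi.single_eq_same]
              refine mem_mulS.2 ⟨m2 * v2, ?_, rfl⟩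
              have := IsHomogeneous.mul hm2 hv2
              rwa [show 1 + (d m' - 2) = d m' - 1 by omega] at this
            · rw [Pi.single_eq_of_ne h]
              exact Submodule.zero_mem _
        have h7 := Submodule.finrank_mono h6
        rw [finrank_piS] at h7
        have h8 : Module.finrank K (mulST z d 1) = ∑ m, (d m - 1 + 2).choose 2 := by
          rw [mulST, finrank_piS]
          exact Finset.sum_congr rfl fun m _ => finrank_mulS hz0 (d m - 1)
        have h9 : ∑ m, (d m - 1 + 2).choose 2 ≤ ∑ m, (Module.finrank K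
            ((mulS m1 (d m - 1 - 1) ⊔ mulS m2 (d m - 1 - 1) :
              Submodule K (MvPolynomial (Fin 3) K)).map (mulL z)) + 1) := by
          refine Finset.sum_le_sum fun m _ => ?_
          have hm := hd m
          rw [finrank_map_mul hz0]
          have := codim_two hcop hm1 hm2 hm10 hm20 (j := d m - 1) (by omega) (by omega)
            (by omega)
          simpa using this
        rw [Finset.sum_add_distrib, Finset.sum_const, Finset.card_univ, Fintype.card_fin,
          smul_eq_mul, mul_one] at h9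
        omega
      have h6 := Submodule.finrank_sup_add_finrank_inf_eq R' (mulST z d 1)
      have h7 := hL z hz hz0
      have h8 : (R ⊔ mulST z d 1 : Submodule K (Fin c → MvPolynomial (Fin 3) K)) ≤
          R' ⊔ mulST z d 1 := sup_le_sup_right h1 _
      have h9 := Submodule.finrank_mono h8
      omega
  · -- at most one conic
    by_cases hg1 : 1 ≤ Module.finrank K (QQ R' d 2)
    · have h5 : R = R' := Submodule.eq_of_le_of_finrank_le h1 (by omega)
      obtain ⟨q, hq, hq0⟩ := exists_ne hg1
      rw [← h5] at hq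
      exact hq0 (hC q hq)
    · omega

end

end Pool.Agent.T2C.H11
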