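import Pool.Agent.Lib.MP_c7af3c_ag.T2C.IfaceA
import Pool.Agent.Lib.MP_c7af3c_ag.T2C.H49.Nopl
import Pool.Agent.Lib.MP_c7af3c_ag.T2C.H11.Hall
import Pool.Agent.Lib.MP_c7af3c_ag.GEN.H12.Reln

/-!
# MP_c7af3c_ag, project T2C: the type (2,5), the point in a plane over `K` (row K25)
Finding 4174, section 1, without dimension of pencils: the minors of `h` are all multiples of one
conic over `K`, hence zero.
-/

set_option autoImplicit false

namespace Pool.Agent.T2C.H11

open MvPolynomial Pool.Agent.Gen Pool.Agent.Sharp Pool.Agent.Edge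
open Pool.Agent.T2 (Fk Rac lnf Sizes Sit)
open Pool.Agent.Edge.H65 (ssub ssub_hom ssub_C ssub_X)

/-! ### linear forms in three variables -/

section lin

variable {Ω : Type} [Field Ω]

theorem coeff_lnf (a : Fin 3 → Ω) (i : Fin 3) :
    coeff (Finsupp.single i 1) (lnf a) = a i := by
  classical
  unfold lnf
  rw [coeff_sum, Finset.sum_eq_single i]
  · rw [coeff_C_mul, coeff_X, if_pos rfl, mul_one]
  · intro j _ hj
    rw [coeff_C_mul, coeff_X, if_neg, mul_zero]
    intro h
    exact hj (Finsupp.single_left_injective one_ne_zero h)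
  · intro h
    exact absurd (Finset.mem_univ i) h

theorem lnf_hom (a : Fin 3 → Ω) : (lnf a).IsHomogeneous 1 := by
  unfold lnf
  refine IsHomogeneous.sum _ _ _ fun i _ => ?_
  have h := (isHomogeneous_C (Fin 3) (a i)).mul (isHomogeneous_X Ω i)
  rwa [zero_add] at h

theorem eval_lnf (a y : Fin 3 → Ω) : eval y (lnf a) = ∑ j, a j * y j := by
  unfold lnf
  rw [map_sum]
  exact Finset.sum_congr rfl fun j _ => by rw [map_mul, eval_C, eval_X]

theorem lnf_ne {a : Fin 3 → Ω} (h : a ≠ 0) : lnf a ≠ 0 := by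
  intro h0
  apply h
  funext i
  rw [← coeff_lnf a i, h0, coeff_zero, Pi.zero_apply]

theorem lnf_smul (r : Ω) (a : Fin 3 → Ω) : lnf (r • a) = C r * lnf a := by
  unfold lnf
  rw [Finset.mul_sum]
  exact Finset.sum_congr rfl fun i _ => by rw [Pi.smul_apply, smul_eq_mul, map_mul, mul_assoc]

theorem lnf_sub (a b : Fin 3 → Ω) : lnf (a - b) = lnf a - lnf b := by
  unfold lnf
  rw [← Finset.sum_sub_distrib]
  exact Finset.sum_congr rfl fun i _ => by rw [Pi.sub_apply, map_sub, sub_mul]

theorem lnf_sum {N : ℕ} (f : Fin N → Fin 3 → Ω) : lnf (∑ l, f l) = ∑ l, lnf (f l) := by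
  unfold lnf
  rw [Finset.sum_comm]
  exact Finset.sum_congr rfl fun i _ => by rw [Finset.sum_apply, map_sum, Finset.sum_mul]

theorem lnf_coef {k : Subfield Ω} {a : Fin 3 → Ω} (ha : ∀ i, a i ∈ k) (I : Fin 3 →₀ ℕ) :
    coeff I (lnf a) ∈ k := by
  classical
  unfold lnf
  rw [coeff_sum]
  refine k.sum_mem fun i _ => ?_
  rw [coeff_C_mul, coeff_X]
  split_ifs
  · exact k.mul_mem (ha i) k.one_mem
  · exact k.mul_mem (ha i) k.zero_mem

theorem mul_coef {σ : Type} {k : Subfield Ω} {a b : MvPolynomial σ Ω} (ha : ∀ I, coeff I a ∈ k)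
    (hb : ∀ I, coeff I b ∈ k) (I : σ →₀ ℕ) : coeff I (a * b) ∈ k := by
  classical
  rw [coeff_mul]
  exact k.sum_mem fun _ _ => k.mul_mem (ha _) (hb _)

theorem not_dvd_lnf {a b : Fin 3 → Ω} (h : ∀ r : Ω, b ≠ r • a) : ¬ lnf a ∣ lnf b := by
  refine not_dvd_of_not_mem (lnf_hom _) (lnf_hom _) fun hmem => ?_
  obtain ⟨r, hr⟩ := Submodule.mem_span_singleton.1 hmem
  refine h r ?_
  funext i
  rw [← coeff_lnf b i, ← hr, coeff_smul, coeff_lnf, Pi.smul_apply]

/-- If the minor of `h` and `a` is zero, `h` of rank two and `h y = 0`, then `a y = 0`. -/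
theorem lnf_key {h a : Fin 2 → Fin 3 → Ω} (hli : LinearIndependent Ω h) {y : Fin 3 → Ω}
    (hy : ∀ e, ∑ j, h e j * y j = 0)
    (hm : lnf (h 0) * lnf (a 1) = lnf (h 1) * lnf (a 0)) (e : Fin 2) :
    ∑ j, a e j * y j = 0 := by
  have hne : ∀ e, lnf (h e) ≠ 0 := fun e => lnf_ne (hli.ne_zero e)
  have hp : ∀ e, Prime (lnf (h e)) := fun e => (irreducible_lin (lnf_hom _) (hne e)).prime
  have h2 : ∀ s t : Ω, s • h 0 + t • h 1 = 0 → s = 0 ∧ t = 0 := by
    intro s t hst
    have h3 := Fintype.linearIndependent_iff.1 hli ![s, t] (by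
      rw [Fin.sum_univ_two]
      exact hst)
    exact ⟨h3 0, h3 1⟩
  have h01 : ¬ lnf (h 0) ∣ lnf (h 1) := not_dvd_lnf fun r hr => by
    have := (h2 r (-1) (by rw [hr, neg_smul, one_smul, add_neg_cancel])).2
    exact one_ne_zero (neg_eq_zero.1 this)
  have h10 : ¬ lnf (h 1) ∣ lnf (h 0) := not_dvd_lnf fun r hr => by
    have := (h2 (-1) r (by rw [hr, neg_smul, one_smul, neg_add_cancel])).1
    exact one_ne_zero (neg_eq_zero.1 this)
  have k0 : lnf (h 0) ∣ lnf (a 0) :=
    ((hp 0).dvd_or_dvd ⟨_, hm.symm⟩).resolve_left h01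
  have k1 : lnf (h 1) ∣ lnf (a 1) :=
    ((hp 1).dvd_or_dvd ⟨_, hm⟩).resolve_left h10
  have key : ∀ e, lnf (h e) ∣ lnf (a e) → ∑ j, a e j * y j = 0 := by
    rintro e ⟨s, hs⟩
    rw [← eval_lnf, hs, map_mul, eval_lnf, hy e, zero_mul]
  fin_cases e
  · exact key 0 k0
  · exact key 1 k1

end lin

/-! ### trivectors over `K` divisible by `x` -/

section tri

variable {Ω : Type} [Field Ω] {n : ℕ}

/-- the coordinates of `x ∧ v ∧ w` -/
def tv (x v w : Fin (n + 1) → Ω) (b c d : Fin (n + 1)) : Ω :=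
  x b * (v c * w d - v d * w c) - x c * (v b * w d - v d * w b) + x d * (v b * w c - v c * w b)

theorem det_eq_tv (x v w : Fin (n + 1) → Ω) (i : Fin 3 → Fin (n + 1)) :
    Matrix.det (Matrix.of fun a b => (![x, v, w] : Fin 3 → Fin (n + 1) → Ω) a (i b)) =
      tv x v w (i 0) (i 1) (i 2) := by
  rw [Matrix.det_fin_three]
  simp only [Matrix.of_apply, Matrix.cons_val_zero, Matrix.cons_val_one, Matrix.cons_val,
    tv]
  ring

variable {K : Subfield Ω} {x : Fin (n + 1) → Ω} {t : Fin 3 → Fin (n + 1)}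
  {P : Fin 3 → Fin (n + 1) → Ω}

/-- A trivector over `K` which is divisible by `x`, where `x` spans the plane `P` over `K`, is
determined by one coordinate. -/
theorem tv_zero (Pt : ∀ i j, P i (t j) = if i = j then 1 else 0) (Pk : ∀ i f, P i f ∈ K)
    (xP : ∀ f, x f = ∑ i, P i f * x (t i))
    (yk : ∀ a : Fin 3 → Ω, (∀ i, a i ∈ K) → ∑ i, a i * x (t i) = 0 → a = 0)
    {v w : Fin (n + 1) → Ω} (hT : ∀ b c d, tv x v w b c d ∈ K)
    (h0 : tv x v w (t 0) (t 1) (t 2) = 0) (b c d : Fin (n + 1)) : tv x v w b c d = 0 := by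
  have hx : ∀ a b c d, x a * tv x v w b c d - x b * tv x v w a c d + x c * tv x v w a b d -
      x d * tv x v w a b c = 0 := by
    intro a b c d
    unfold tv
    ring
  have hP : ∀ i a b c d, P i a * tv x v w b c d - P i b * tv x v w a c d +
      P i c * tv x v w a b d - P i d * tv x v w a b c = 0 := by
    intro i a b c d
    have h1 := yk (fun i => P i a * tv x v w b c d - P i b * tv x v w a c d +
      P i c * tv x v w a b d - P i d * tv x v w a b c)
      (fun i => K.sub_mem (K.add_mem (K.sub_mem (K.mul_mem (Pk _ _) (hT _ _ _))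
        (K.mul_mem (Pk _ _) (hT _ _ _))) (K.mul_mem (Pk _ _) (hT _ _ _)))
        (K.mul_mem (Pk _ _) (hT _ _ _))) (by
      have h2 := hx a b c d
      rw [xP a, xP b, xP c, xP d, Finset.sum_mul, Finset.sum_mul, Finset.sum_mul,
        Finset.sum_mul, ← Finset.sum_sub_distrib, ← Finset.sum_add_distrib,
        ← Finset.sum_sub_distrib] at h2
      rw [← h2]
      exact Finset.sum_congr rfl fun i _ => by ring)
    exact congrFun h1 i
  have anti1 : ∀ a b c, tv x v w a b c = - tv x v w b a c := fun a b c => by unfold tv; ring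
  have anti2 : ∀ a b c, tv x v w a b c = - tv x v w a c b := fun a b c => by unfold tv; ring
  have s1 : ∀ b, tv x v w b (t 1) (t 2) = 0 := by
    intro b
    have h := hP 0 b (t 0) (t 1) (t 2)
    rw [h0, Pt, Pt, Pt, if_pos rfl, if_neg (by decide), if_neg (by decide)] at h
    linear_combination - h
  have s2 : ∀ b, tv x v w b (t 0) (t 2) = 0 := by
    intro b
    have h := hP 1 b (t 0) (t 1) (t 2)
    rw [h0, Pt, Pt, Pt, if_neg (by decide), if_pos rfl, if_neg (by decide)] at h
    linear_combination h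
  have s3 : ∀ b, tv x v w b (t 0) (t 1) = 0 := by
    intro b
    have h := hP 2 b (t 0) (t 1) (t 2)
    rw [h0, Pt, Pt, Pt, if_neg (by decide), if_neg (by decide), if_pos rfl] at h
    linear_combination - h
  have r1 : ∀ b c, tv x v w b c (t 1) = 0 := by
    intro b c
    have h := hP 0 b c (t 0) (t 1)
    rw [Pt, Pt, if_pos rfl, if_neg (by decide), s3, s3] at h
    linear_combination h
  have r0 : ∀ b c, tv x v w b c (t 0) = 0 := by
    intro b c
    have h := hP 1 b c (t 0) (t 1)
    rw [Pt, Pt, if_neg (by decide), if_pos rfl, s3, s3] at h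
    linear_combination - h
  have h := hP 0 b c d (t 0)
  rw [Pt, if_pos rfl, r0, r0, r0] at h
  linear_combination - h

/-- vectors with `x ∧ v ∧ w = 0` -/
theorem mem_of_tv {v w : Fin (n + 1) → Ω} (hli : LinearIndependent Ω ![x, v])
    {j : Fin (n + 1)} (hj : x j = 1) (h : ∀ b c d, tv x v w b c d = 0) :
    ∃ α β : Ω, w = α • x + β • v := by
  have h1 : ∃ b, v b - x b * v j ≠ 0 := by
    by_contra hcon
    push Not at hcon
    have h2 := LinearIndependent.pair_iff.1 hli (v j) (-1) (by
      funext b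
      rw [Pi.add_apply, Pi.smul_apply, Pi.smul_apply, Pi.zero_apply, smul_eq_mul, smul_eq_mul]
      linear_combination - hcon b)
    exact one_ne_zero (neg_eq_zero.1 h2.2)
  obtain ⟨b, hb⟩ := h1
  refine ⟨(v b * w j - v j * w b) / (v b - x b * v j),
    (w b - x b * w j) / (v b - x b * v j), ?_⟩
  funext f
  rw [Pi.add_apply, Pi.smul_apply, Pi.smul_apply, smul_eq_mul, smul_eq_mul]
  have h2 := h j b f
  unfold tv at h2
  rw [hj] at h2
  rw [div_mul_eq_mul_div, div_mul_eq_mul_div, ← add_div, eq_div_iff hb]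
  linear_combination h2

end tri

/-! ### the row K25 -/

theorem mnr_coef {Ω : Type} [Field Ω] {K : Subfield Ω} {N : ℕ} {ι : Fin N → Fin 2 → Fin 3 → Ω}
    (hι : ∀ l e j, ι l e j ∈ K) (l l' : Fin N) (e e' : Fin 2) : Fk K 2 (mnr ι l l' e e') := by
  unfold mnr
  refine ⟨((lnf_hom _).mul (lnf_hom _)).sub ((lnf_hom _).mul (lnf_hom _)), fun I => ?_⟩
  rw [coeff_sub]
  exact K.sub_mem (mul_coef (lnf_coef (hι l e)) (lnf_coef (hι l' e')) I)
    (mul_coef (lnf_coef (hι l e')) (lnf_coef (hι l' e)) I)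

/-- no conic over `K` through the point -/
theorem noconic {Ω : Type} [Field Ω] {K : Subfield Ω} {n c : ℕ} {d : Fin c → ℕ}
    (D : DSys Ω n c d) (hk : Rac K) (kF : ∀ m I, coeff I (D.F m) ∈ K)
    {x : Fin (n + 1) → Ω} {t : Fin 3 → Fin (n + 1)} {P : Fin 3 → Fin (n + 1) → Ω}
    (h0 : ∀ m, eval x (D.F m) = 0)
    (Pt : ∀ i j, P i (t j) = if i = j then 1 else 0) (Pk : ∀ i f, P i f ∈ K)
    (xP : ∀ f, x f = ∑ i, P i f * x (t i))
    (yk : ∀ a : Fin 3 → Ω, (∀ i, a i ∈ K) → ∑ i, a i * x (t i) = 0 → a = 0)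
    (hnum : H49.Num n c d 2) {w : MvPolynomial (Fin 3) Ω} (hw : Fk K 2 w)
    (hy : eval (fun i => x (t i)) w = 0) : w = 0 := by
  by_contra hw0
  obtain ⟨e, g, g1, g2, g3, g4, g5, g6⟩ := H12.clos hk (fun i => x (t i)) yk hw.1 hw.2 hw0 hy
  have he : e ≤ 2 := by
    obtain ⟨q, -, -, -, h⟩ := g6 2 w hw.1 hw.2 hy
    exact h hw0
  have he2 : e = 2 := le_antisymm he g3
  subst he2
  have hP : LinearIndependent Ω P := by
    rw [Fintype.linearIndependent_iff]
    intro b hb j
    have h := congrFun hb (t j)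
    rw [Finset.sum_apply, Pi.zero_apply] at h
    rw [← h, Finset.sum_eq_single j]
    · rw [Pi.smul_apply, Pt, if_pos rfl, smul_eq_mul, mul_one]
    · intro i _ hi
      rw [Pi.smul_apply, Pt, if_neg hi, smul_zero]
    · intro h
      exact absurd (Finset.mem_univ j) h
  refine H2.nocurve D hP (e := 2) (by norm_num) g1 g4 hnum fun m => ?_
  obtain ⟨q, -, -, h, -⟩ := g6 (d m) _ (ssub_hom P (D.hom m)) (H49.ssub_mem Pk (kF m)) (by
    rw [H49.eval_ssub]
    have e : (fun f => ∑ i, P i f * x (t i)) = x := funext fun f => (xP f).symm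
    rw [e]
    exact h0 m)
  exact ⟨q, h⟩

/-- `F'_m(x) V(G e_m) = - G(x)` -/
theorem dF_single {Ω : Type} [Field Ω] {n c : ℕ} {d : Fin c → ℕ} (D : DSys Ω n c d)
    {x : Fin (n + 1) → Ω} (h0 : ∀ m, eval x (D.F m) = 0) (m : Fin c)
    {G : MvPolynomial (Fin (n + 1)) Ω} (hG : G.IsHomogeneous (d m)) :
    ∑ p, eval x (pderiv p (D.F m)) * VT D x (Pi.single m G) p = - eval x G := by
  have e : VT D x (Pi.single m G) = D.V x m G := by
    rw [VT_apply, Finset.sum_eq_single m]
    · rw [Pi.single_eq_same]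
    · intro m' _ hm
      rw [Pi.single_eq_of_ne hm, map_zero]
    · intro h
      exact absurd (Finset.mem_univ m) h
  rw [e, Gen.H12.reln Ω n c d D x h0 m m G hG, if_pos rfl]

theorem k25 : K25Statement := by
  intro Ω _ _ _ K hK n d D x j0 η t P A0 m0 hn hd5 hd2 hG hJ a hcore hpen hH
  obtain ⟨N, ι, u, hι, hy, hli, hu, hmin⟩ := hpen
  have Pt := hG.hull.Pt
  have Pk := hG.hull.Pk
  have xP := hG.hull.xP
  have yk := hG.hull.yk
  have ht0 : x (t 0) = 1 := by
    rw [hG.hull.t0]
    exact hG.hj0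
  set h : Fin 2 → Fin 3 → Ω := fun e j => ∑ l, u l * ι l e j with hh
  have hnum : H49.Num n 2 d 2 := by
    subst hn
    refine H49.num2 (c := 2) (fun m => ?_) ?_
    · by_cases hm : m = m0
      · rw [hm, hd5]; norm_num
      · rw [hd2 m hm]
    · rw [← Finset.add_sum_erase _ _ (Finset.mem_univ m0), hd5, Finset.sum_congr rfl
        (fun m hm => hd2 m (Finset.ne_of_mem_erase hm)), Finset.sum_const,
        Finset.card_erase_of_mem (Finset.mem_univ m0), Finset.card_univ, Fintype.card_fin]
      rfl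
  have NOC : ∀ w : MvPolynomial (Fin 3) Ω, Fk K 2 w → eval (fun i => x (t i)) w = 0 → w = 0 :=
    fun w hw hy => noconic D hG.kalg hG.kF hG.h0 Pt Pk xP yk hnum hw hy
  -- the minors
  set M : Fin N → Fin N → MvPolynomial (Fin 3) Ω := fun l l' => mnr ι l l' 0 1 with hM
  have hMk : ∀ l l', Fk K 2 (M l l') := fun l l' => mnr_coef hι l l' 0 1
  -- the vectors `s` and the numbers `μ`
  set s : Fin N → Fin N → Fin (n + 1) → Ω := fun l l' =>
    VT D x (Pi.single m0 (rename t (M l l') * X j0 ^ (d m0 - 2))) with hs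
  have hT : ∀ l l' b c e, tv x (η 0) (s l l') b c e ∈ K := by
    intro l l' b c e
    have h1 := hJ (rename t (M l l')) ⟨(hMk l l').1.rename_isHomogeneous, fun I => by
      classical
      by_cases hI : ∃ J : Fin 3 →₀ ℕ, J.mapDomain t = I
      · obtain ⟨J, rfl⟩ := hI
        rw [coeff_rename_mapDomain _ (by
          intro i j hij
          by_contra hne
          have h2 := Pt i i
          rw [hij, Pt, if_neg hne, if_pos rfl] at h2
          exact zero_ne_one h2)]
        exact (hMk l l').2 J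
      · rw [coeff_rename_eq_zero]
        · exact K.zero_mem
        · intro J hJ
          exact absurd ⟨J, hJ⟩ hI⟩
      (hH _ (hMk l l') (hmin l l' 0 1 m0 (by omega))) ![b, c, e]
    rw [det_eq_tv] at h1
    exact h1
  set μ : Fin N → Fin N → Ω := fun l l' => tv x (η 0) (s l l') (t 0) (t 1) (t 2) with hμ
  have hμk : ∀ l l', μ l l' ∈ K := fun l l' => hT l l' _ _ _
  have hxη : LinearIndependent Ω ![x, η 0] := by
    have h1 := hG.bas.comp (fun i : Fin 2 => (if i = 0 then Sum.inl () else Sum.inr (Sum.inl 0) :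
      Unit ⊕ (Fin 1 ⊕ Fin 2))) (by
      intro i j hij
      fin_cases i <;> fin_cases j
      · rfl
      · exact absurd hij (by simp)
      · exact absurd hij (by simp)
      · rfl)
    have e : (Sum.elim (fun _ : Unit => x) (Sum.elim η fun b : Fin 2 =>
        VT D x (mulT A0 (lf x j0 (t b.succ)))) ∘
        fun i : Fin 2 => (if i = 0 then Sum.inl () else Sum.inr (Sum.inl 0) :
          Unit ⊕ (Fin 1 ⊕ Fin 2))) = ![x, η 0] := by
      funext i
      fin_cases i <;> rfl
    rw [e] at h1
    exact h1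
  have hxK : x ∈ KerF D x := by
    intro m
    have h1 := congrArg (eval x) (D.hom m).sum_X_mul_pderiv
    rw [map_sum, map_nsmul, hG.h0 m, smul_zero] at h1
    rw [← h1]
    refine Finset.sum_congr rfl fun p _ => ?_
    rw [map_mul, eval_X, mul_comm]
  have hFs : ∀ l l', ∑ p, eval x (pderiv p (D.F m0)) * s l l' p =
      - eval (fun i => x (t i)) (M l l') := by
    intro l l'
    rw [hs, dF_single D hG.h0 m0]
    · rw [map_mul, map_pow, eval_X, hG.hj0, one_pow, mul_one, eval_rename]
      rfl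
    · have h1 := ((hMk l l').1.rename_isHomogeneous (f := t)).mul
        (isHomogeneous_X_pow (R := Ω) j0 (d m0 - 2))
      rwa [show 2 + (d m0 - 2) = d m0 by omega] at h1
  -- two minors
  have two : ∀ (l l' p p' : Fin N) (α β : Ω), α ∈ K → β ∈ K → α * μ l l' = β * μ p p' →
      C α * M l l' = C β * M p p' := by
    intro l l' p p' α β hα hβ hab
    have e1 : ∀ b c e, tv x (η 0) (α • s l l' - β • s p p') b c e =
        α * tv x (η 0) (s l l') b c e - β * tv x (η 0) (s p p') b c e := by
      intro b c e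
      simp only [tv, Pi.sub_apply, Pi.smul_apply, smul_eq_mul]
      ring
    have e2 := tv_zero (v := η 0) (w := α • s l l' - β • s p p') Pt Pk xP yk (fun b c e => by
      rw [e1]
      exact K.sub_mem (K.mul_mem hα (hT _ _ _ _ _)) (K.mul_mem hβ (hT _ _ _ _ _))) (by
      rw [e1]
      exact sub_eq_zero.2 hab)
    obtain ⟨r, r', hr⟩ := mem_of_tv hxη ht0 e2
    have e3 : ∑ q, eval x (pderiv q (D.F m0)) * (α • s l l' - β • s p p') q = 0 := by
      rw [hr]
      exact ((KerF D x).add_mem ((KerF D x).smul_mem r hxK)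
        ((KerF D x).smul_mem r' (hG.gη 0))) m0
    have e4 : ∑ q, eval x (pderiv q (D.F m0)) * (α • s l l' - β • s p p') q =
        α * ∑ q, eval x (pderiv q (D.F m0)) * s l l' q -
        β * ∑ q, eval x (pderiv q (D.F m0)) * s p p' q := by
      rw [Finset.mul_sum, Finset.mul_sum, ← Finset.sum_sub_distrib]
      exact Finset.sum_congr rfl fun q _ => by
        rw [Pi.sub_apply, Pi.smul_apply, Pi.smul_apply, smul_eq_mul, smul_eq_mul]
        ring
    rw [e4, hFs, hFs] at e3
    have e5 := NOC (C α * M l l' - C β * M p p') ⟨?_, fun I => ?_⟩ ?_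
    · exact sub_eq_zero.1 e5
    · have h1 := (isHomogeneous_C (Fin 3) α).mul (hMk l l').1
      have h2 := (isHomogeneous_C (Fin 3) β).mul (hMk p p').1
      rw [zero_add] at h1 h2
      exact h1.sub h2
    · rw [coeff_sub, coeff_C_mul, coeff_C_mul]
      exact K.sub_mem (K.mul_mem hα ((hMk _ _).2 I)) (K.mul_mem hβ ((hMk _ _).2 I))
    · rw [map_sub, map_mul, map_mul, eval_C, eval_C]
      linear_combination - e3
  -- the minors with `h`
  have hsum : ∀ p, ∑ l, C (u l) * M l p = lnf (h 0) * lnf (ι p 1) - lnf (h 1) * lnf (ι p 0) := by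
    intro p
    have e1 : ∀ e, lnf (h e) = ∑ l, C (u l) * lnf (ι l e) := by
      intro e
      have : h e = ∑ l, u l • ι l e := by
        funext j
        rw [Finset.sum_apply]
        rfl
      rw [this, lnf_sum]
      exact Finset.sum_congr rfl fun l _ => lnf_smul _ _
    rw [e1, e1, Finset.sum_mul, Finset.sum_mul, ← Finset.sum_sub_distrib]
    refine Finset.sum_congr rfl fun l _ => ?_
    simp only [hM, mnr]
    ring
  -- the values at the point
  set z : Fin N → Fin 2 → Ω := fun p e => ∑ j, ι p e j * x (t j) with hz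
  have hMz : ∀ p q, eval (fun i => x (t i)) (M p q) = z p 0 * z q 1 - z p 1 * z q 0 := by
    intro p q
    have e1 : ∀ p e, eval (fun i => x (t i)) (lnf (ι p e)) = z p e := fun p e =>
      eval_lnf (ι p e) fun i => x (t i)
    rw [← e1, ← e1, ← e1, ← e1]
    simp only [hM, mnr, map_sub, map_mul]
  -- not all `z` are zero
  have hz0 : ¬ ∀ p e, z p e = 0 := by
    intro hall
    have h1 : ∀ p e, ι p e = 0 := fun p e => yk (ι p e) (hι p e) (hall p e)
    apply hli.ne_zero 0
    funext j
    exact Finset.sum_eq_zero fun l _ => by rw [h1, Pi.zero_apply, mul_zero]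
  have key : ∀ b : Fin N → Ω, (∑ p, C (b p) * ∑ l, C (u l) * M l p) = 0 →
      ∀ e, ∑ p, b p * z p e = 0 := by
    intro b hb e
    have h1 := lnf_key (h := h) (a := fun e => ∑ p, b p • ι p e) hli hy (by
      have e1 : ∀ e, lnf (∑ p, b p • ι p e) = ∑ p, C (b p) * lnf (ι p e) := by
        intro e
        rw [lnf_sum]
        exact Finset.sum_congr rfl fun l _ => lnf_smul _ _
      rw [e1, e1, ← sub_eq_zero, Finset.mul_sum, Finset.mul_sum, ← Finset.sum_sub_distrib, ← hb]
      refine Finset.sum_congr rfl fun p _ => ?_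
      rw [hsum]
      ring) e
    rw [← h1]
    simp only [hz, Finset.mul_sum, Finset.sum_apply, Pi.smul_apply, smul_eq_mul, Finset.sum_mul]
    rw [Finset.sum_comm]
    exact Finset.sum_congr rfl fun p _ => Finset.sum_congr rfl fun j _ => by ring
  by_cases hall0 : ∀ p q, M p q = 0
  · apply hz0
    intro p e
    have h1 := key (Pi.single p 1) (by
      refine Finset.sum_eq_zero fun q _ => ?_
      rw [Finset.sum_eq_zero fun l _ => by rw [hall0, mul_zero], mul_zero]) e
    rw [Finset.sum_eq_single p] at h1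
    · rwa [Pi.single_eq_same, one_mul] at h1
    · intro q _ hq
      rw [Pi.single_eq_of_ne hq, zero_mul]
    · intro h
      exact absurd (Finset.mem_univ p) h
  · push Not at hall0
    obtain ⟨p0, q0, hpq⟩ := hall0
    have hμ0 : μ p0 q0 ≠ 0 := by
      intro h0
      have h1 := two p0 q0 p0 q0 1 0 K.one_mem K.zero_mem (by rw [h0]; ring)
      rw [map_one, one_mul, map_zero, zero_mul] at h1
      exact hpq h1
    have hMM : ∀ l l', C (μ p0 q0) * M l l' = C (μ l l') * M p0 q0 := fun l l' =>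
      two l l' p0 q0 _ _ (hμk _ _) (hμk _ _) (mul_comm _ _)
    set v : Fin N → Ω := fun p => ∑ l, u l * μ l p with hv
    have hv2 : ∀ p, C (μ p0 q0) * ∑ l, C (u l) * M l p = C (v p) * M p0 q0 := by
      intro p
      rw [Finset.mul_sum, hv, map_sum, Finset.sum_mul]
      refine Finset.sum_congr rfl fun l _ => ?_
      rw [mul_left_comm, hMM, map_mul]
      ring
    have hC0 : (C (μ p0 q0) : MvPolynomial (Fin 3) Ω) ≠ 0 := by
      rwa [Ne, C_eq_zero]
    -- the point is not on the conic
    have hMy : eval (fun i => x (t i)) (M p0 q0) ≠ 0 := fun h1 => hpq (NOC _ (hMk p0 q0) h1)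
    rw [hMz] at hMy
    have kv : ∀ p q e, v q * z p e = v p * z q e := by
      intro p q e
      by_cases hpq' : p = q
      · rw [hpq']
      have h1 := key (Pi.single p (v q) - Pi.single q (v p)) (by
        rw [Finset.sum_eq_add p q hpq']
        · rw [Pi.sub_apply, Pi.sub_apply, Pi.single_eq_same, Pi.single_eq_same,
            Pi.single_eq_of_ne hpq', Pi.single_eq_of_ne (Ne.symm hpq'), sub_zero, zero_sub]
          apply mul_left_cancel₀ hC0
          rw [map_neg]
          linear_combination C (v q) * hv2 p - C (v p) * hv2 q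
        · rintro j - ⟨h1, h2⟩
          rw [Pi.sub_apply, Pi.single_eq_of_ne h1, Pi.single_eq_of_ne h2, sub_zero, map_zero,
            zero_mul]
        · intro h
          exact absurd (Finset.mem_univ _) h
        · intro h
          exact absurd (Finset.mem_univ _) h) e
      rw [Finset.sum_eq_add p q hpq'] at h1
      · rw [Pi.sub_apply, Pi.sub_apply, Pi.single_eq_same, Pi.single_eq_same,
          Pi.single_eq_of_ne hpq', Pi.single_eq_of_ne (Ne.symm hpq'), sub_zero, zero_sub] at h1
        linear_combination h1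
      · rintro j - ⟨h1, h2⟩
        rw [Pi.sub_apply, Pi.single_eq_of_ne h1, Pi.single_eq_of_ne h2, sub_zero, zero_mul]
      · intro h
        exact absurd (Finset.mem_univ _) h
      · intro h
        exact absurd (Finset.mem_univ _) h
    by_cases hv0 : ∀ p, v p = 0
    · apply hz0
      intro p e
      have h1 := key (Pi.single p 1) (by
        rw [Finset.sum_eq_single p]
        · rw [Pi.single_eq_same, map_one, one_mul]
          apply mul_left_cancel₀ hC0
          rw [hv2, hv0 p, map_zero, zero_mul, mul_zero]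
        · intro q _ hq
          rw [Pi.single_eq_of_ne hq, map_zero, zero_mul]
        · intro h
          exact absurd (Finset.mem_univ p) h) e
      rw [Finset.sum_eq_single p] at h1
      · rwa [Pi.single_eq_same, one_mul] at h1
      · intro q _ hq
        rw [Pi.single_eq_of_ne hq, zero_mul]
      · intro h
        exact absurd (Finset.mem_univ p) h
    · push Not at hv0
      obtain ⟨p, hp⟩ := hv0
      apply hMy
      apply mul_left_cancel₀ (mul_ne_zero hp hp)
      have a1 := kv p0 p 0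
      have a2 := kv p0 p 1
      have b1 := kv q0 p 0
      have b2 := kv q0 p 1
      linear_combination (v p * z q0 1) * a1 + (v p0 * z p 0) * b2 - (v p * z q0 0) * a2 -
        (v p0 * z p 1) * b1

end Pool.Agent.T2C.H11
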