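import Pool.Agent.Lib.MP_c7af3c_ag.T2C.H11.Hall

/-!
# MP_c7af3c_ag, project T2C: LEMMA H, the form used for the block `M_2 + M_1^c -> M / R`
-/

set_option autoImplicit false

namespace Pool.Agent.T2C.H11

open MvPolynomial Pool.Agent.Edge.H9.Forms
open Pool.Agent.T2 (S3 mulS mem_mulS)

section

variable {K : Type} [Field K] {c : ℕ}

/-- the tuples of forms which vanish at `x` -/
noncomputable def STx (x : Fin 3 → K) (d : Fin c → ℕ) :
    Submodule K (Fin c → MvPolynomial (Fin 3) K) :=
  Submodule.pi Set.univ fun m => S3 K (d m) ⊓ LinearMap.ker (aeval x).toLinearMap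

theorem mem_STx {x : Fin 3 → K} {d : Fin c → ℕ} {g : Fin c → MvPolynomial (Fin 3) K} :
    g ∈ STx x d ↔ ∀ m, (g m).IsHomogeneous (d m) ∧ eval x (g m) = 0 := by
  simp [STx, Submodule.mem_pi, aeval_eq_eval]

theorem STx_le (x : Fin 3 → K) (d : Fin c → ℕ) : STx x d ≤ ST K d := by
  intro g hg
  exact fun m _ => (mem_STx.1 hg m).1

theorem finrank_ker_eval {x : Fin 3 → K} (hx : x ≠ 0) (j : ℕ) :
    Module.finrank K (S3 K j ⊓ LinearMap.ker (aeval x).toLinearMap :
      Submodule K (MvPolynomial (Fin 3) K)) + 1 = (j + 2).choose 2 := by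
  obtain ⟨i, hi⟩ := Function.ne_iff.1 hx
  have h1 := LinearMap.finrank_range_add_finrank_ker
    (((aeval x).toLinearMap : MvPolynomial (Fin 3) K →ₗ[K] K).domRestrict (S3 K j))
  have h2 : LinearMap.range (((aeval x).toLinearMap :
      MvPolynomial (Fin 3) K →ₗ[K] K).domRestrict (S3 K j)) = ⊤ := by
    rw [LinearMap.range_eq_top]
    intro a
    refine ⟨⟨C (a / x i ^ j) * X i ^ j, ?_⟩, ?_⟩
    · have h := (isHomogeneous_C (Fin 3) (a / x i ^ j)).mul ((isHomogeneous_X K i).pow j)
      rwa [zero_add, one_mul] at h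
    · rw [LinearMap.domRestrict_apply]
      simp only [AlgHom.toLinearMap_apply, map_mul, map_pow, aeval_X]
      rw [← MvPolynomial.algebraMap_eq, AlgHom.commutes]
      simp only [Algebra.algebraMap_self, RingHom.id_apply]
      exact div_mul_cancel₀ _ (pow_ne_zero _ hi)
  have h3 : Module.finrank K (LinearMap.ker (((aeval x).toLinearMap :
      MvPolynomial (Fin 3) K →ₗ[K] K).domRestrict (S3 K j))) =
      Module.finrank K (S3 K j ⊓ LinearMap.ker (aeval x).toLinearMap :
        Submodule K (MvPolynomial (Fin 3) K)) := by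
    rw [LinearMap.ker_domRestrict, ← Submodule.map_comap_subtype,
      Submodule.finrank_map_subtype_eq]
  rw [h2, h3, finrank_top, Module.finrank_self, finrank_S3] at h1
  omega

instance finite_STx (x : Fin 3 → K) (d : Fin c → ℕ) : FiniteDimensional K (STx x d) :=
  Submodule.finiteDimensional_of_le (STx_le x d)

theorem finrank_STx {x : Fin 3 → K} (hx : x ≠ 0) (d : Fin c → ℕ) :
    Module.finrank K (STx x d) + c = Module.finrank K (ST K d) := by
  have hf : ∀ m : Fin c, FiniteDimensional K (S3 K (d m) ⊓ LinearMap.ker (aeval x).toLinearMap :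
      Submodule K (MvPolynomial (Fin 3) K)) := fun m =>
    Submodule.finiteDimensional_of_le inf_le_left
  rw [STx, finrank_piS, ST, finrank_piS]
  have h : ∀ m : Fin c, Module.finrank K (S3 K (d m)) =
      Module.finrank K (S3 K (d m) ⊓ LinearMap.ker (aeval x).toLinearMap :
        Submodule K (MvPolynomial (Fin 3) K)) + 1 := by
    intro m
    rw [finrank_ker_eval hx, finrank_S3]
  rw [Finset.sum_congr rfl fun m _ => h m, Finset.sum_add_distrib, Finset.sum_const,
    Finset.card_univ, Fintype.card_fin, smul_eq_mul, mul_one]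

/-- the multiples of the conics in `Q` and of the linear forms in `L` -/
noncomputable def mulQL (Q L : Submodule K (MvPolynomial (Fin 3) K)) (d : Fin c → ℕ) :
    Submodule K (Fin c → MvPolynomial (Fin 3) K) :=
  Submodule.span K ({g | ∃ q ∈ Q, g ∈ mulST q d 2} ∪ {g | ∃ l ∈ L, g ∈ mulST l d 1})

theorem mulST_le_STx {x : Fin 3 → K} {d : Fin c → ℕ} {j : ℕ} (hd : ∀ m, j ≤ d m)
    {q : MvPolynomial (Fin 3) K} (hq : q.IsHomogeneous j) (hqx : eval x q = 0) :
    mulST q d j ≤ STx x d := by
  intro g hg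
  rw [mem_mulST] at hg
  refine mem_STx.2 fun m => ⟨mulS_le_S3 hq (hd m) (hg m), ?_⟩
  obtain ⟨b, _, hb⟩ := mem_mulS.1 (hg m)
  rw [← hb, map_mul, hqx, zero_mul]

/-- **LEMMA H**, second form. -/
theorem hall_x {d : Fin c → ℕ} (hd : ∀ m, 2 ≤ d m) (hc : c ≤ 3)
    {R : Submodule K (Fin c → MvPolynomial (Fin 3) K)} {x : Fin 3 → K} (hx : x ≠ 0)
    (hR : R ≤ STx x d)
    (hdim : Module.finrank K (ST K d) = Module.finrank K R + (3 * c + 5))
    (hL : ∀ z : MvPolynomial (Fin 3) K, z.IsHomogeneous 1 → z ≠ 0 →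
      Module.finrank K (ST K d) ≤ Module.finrank K (R ⊔ mulST z d 1 :
        Submodule K (Fin c → MvPolynomial (Fin 3) K)) + (2 * c + 2))
    (hC : ∀ q ∈ QQ R d 2, q = 0)
    {Q' L' : Submodule K (MvPolynomial (Fin 3) K)}
    (hQ : ∀ q ∈ Q', q.IsHomogeneous 2 ∧ eval x q = 0)
    (hL' : ∀ l ∈ L', l.IsHomogeneous 1 ∧ eval x l = 0) :
    Module.finrank K Q' + c * Module.finrank K L' + Module.finrank K R ≤
      Module.finrank K (R ⊔ mulQL Q' L' d :
        Submodule K (Fin c → MvPolynomial (Fin 3) K)) := by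
  have hle : (R ⊔ mulQL Q' L' d : Submodule K (Fin c → MvPolynomial (Fin 3) K)) ≤ STx x d := by
    refine sup_le hR (Submodule.span_le.2 ?_)
    rintro g (⟨q, hq, hg⟩ | ⟨l, hl, hg⟩)
    · exact mulST_le_STx hd (hQ q hq).1 (hQ q hq).2 hg
    · exact mulST_le_STx (fun m => by have := hd m; omega) (hL' l hl).1 (hL' l hl).2 hg
  set R' : Submodule K (Fin c → MvPolynomial (Fin 3) K) := R ⊔ mulQL Q' L' d with hR'
  have hfR' : FiniteDimensional K R' := Submodule.finiteDimensional_of_le hle
  have h1 : Q' ≤ QQ R' d 2 := fun q hq => ⟨(hQ q hq).1, fun B hB =>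
    Submodule.mem_sup_right (Submodule.subset_span (Or.inl ⟨q, hq, mem_mulST.2 fun m =>
      mem_mulS.2 ⟨B m, hB m, rfl⟩⟩))⟩
  have h2 : L' ≤ QQ R' d 1 := fun q hq => ⟨(hL' q hq).1, fun B hB =>
    Submodule.mem_sup_right (Submodule.subset_span (Or.inr ⟨q, hq, mem_mulST.2 fun m =>
      mem_mulS.2 ⟨B m, hB m, rfl⟩⟩))⟩
  have h3 := Submodule.finrank_mono h1
  have h4 := Submodule.finrank_mono h2
  have h5 : c * Module.finrank K L' ≤ c * Module.finrank K (QQ R' d 1) :=
    Nat.mul_le_mul_left c h4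
  have h6 := finrank_STx hx d
  by_cases h7 : Module.finrank K R' + (c + 1) ≤ Module.finrank K (ST K d)
  · have h8 := hall hd hc hdim hL hC (R' := R') le_sup_left (hle.trans (STx_le x d)) h7
    omega
  · -- `R'` is everything
    have h8 := Submodule.finrank_mono hle
    have h9 : Module.finrank K Q' ≤ 5 := by
      have h10 : Q' ≤ S3 K 2 ⊓ LinearMap.ker (aeval x).toLinearMap := fun q hq =>
        ⟨(hQ q hq).1, by
          rw [SetLike.mem_coe, LinearMap.mem_ker, AlgHom.toLinearMap_apply, aeval_eq_eval]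
          exact (hQ q hq).2⟩
      have hf : FiniteDimensional K (S3 K 2 ⊓ LinearMap.ker (aeval x).toLinearMap :
        Submodule K (MvPolynomial (Fin 3) K)) := Submodule.finiteDimensional_of_le inf_le_left
      have h11 := Submodule.finrank_mono h10
      have h12 := finrank_ker_eval hx 2
      have e1 : (2 + 2).choose 2 = 6 := by decide
      omega
    have h10 : Module.finrank K L' ≤ 2 := by
      have h10 : L' ≤ S3 K 1 ⊓ LinearMap.ker (aeval x).toLinearMap := fun q hq =>
        ⟨(hL' q hq).1, by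
          rw [SetLike.mem_coe, LinearMap.mem_ker, AlgHom.toLinearMap_apply, aeval_eq_eval]
          exact (hL' q hq).2⟩
      have hf : FiniteDimensional K (S3 K 1 ⊓ LinearMap.ker (aeval x).toLinearMap :
        Submodule K (MvPolynomial (Fin 3) K)) := Submodule.finiteDimensional_of_le inf_le_left
      have h11 := Submodule.finrank_mono h10
      have h12 := finrank_ker_eval hx 1
      have e1 : (1 + 2).choose 2 = 3 := by decide
      omega
    have h11 : c * Module.finrank K L' ≤ c * 2 := Nat.mul_le_mul_left c h10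
    omega

end

end Pool.Agent.T2C.H11
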