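import Pool.Agent.Lib.MP_c7af3c_ag.T2C.IfaceB
import Pool.Agent.Lib.MP_c7af3c_ag.T2C.H11.Hall2

/-!
# MP_c7af3c_ag, project T2C: row HALL
-/

set_option autoImplicit false

namespace Pool.Agent.T2C.H11

open MvPolynomial Pool.Agent.Gen Pool.Agent.Sharp Pool.Agent.Edge
open Pool.Agent.T2 (S3 mulS mem_mulS)
open Pool.Agent.T2C.H8 (T3 HomC sm mulC mem_mulC)

section

variable {K : Type} [Field K] {c : ℕ}

theorem ST_eq (d : Fin c → ℕ) : H11.ST K d = T2C.ST K d := by
  ext g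
  rw [mem_ST]
  simp only [H11.ST, Submodule.mem_pi, Set.mem_univ, true_implies]
  rfl

theorem mulST_eq (q : MvPolynomial (Fin 3) K) (d : Fin c → ℕ) (j : ℕ) :
    mulST q d j = mulC q (fun m => d m - j) := by
  ext g
  rw [mem_mulST, mem_mulC]
  constructor
  · intro h
    choose b hb hb2 using fun m => mem_mulS.1 (h m)
    exact ⟨b, hb, funext hb2⟩
  · rintro ⟨b, hb, rfl⟩ m
    exact mem_mulS.2 ⟨b m, hb m, rfl⟩

theorem mulQL_eq (Q' L' : Submodule K (MvPolynomial (Fin 3) K)) (d : Fin c → ℕ) :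
    mulQL Q' L' d ≤ SP Q' (fun m => d m - 2) ⊔ SP L' (fun m => d m - 1) := by
  refine Submodule.span_le.2 ?_
  rintro g (⟨q, hq, hg⟩ | ⟨l, hl, hg⟩)
  · rw [mulST_eq] at hg
    obtain ⟨b, hb, rfl⟩ := mem_mulC.1 hg
    exact Submodule.mem_sup_left (Submodule.subset_span ⟨q, hq, b, hb, rfl⟩)
  · rw [mulST_eq] at hg
    obtain ⟨b, hb, rfl⟩ := mem_mulC.1 hg
    exact Submodule.mem_sup_right (Submodule.subset_span ⟨l, hl, b, hb, rfl⟩)

theorem SP_le {V : Submodule K (MvPolynomial (Fin 3) K)} {d : Fin c → ℕ} {j : ℕ}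
    (hd : ∀ m, j ≤ d m) (hV : ∀ q ∈ V, q.IsHomogeneous j) :
    SP V (fun m => d m - j) ≤ T2C.ST K d := by
  refine Submodule.span_le.2 ?_
  rintro g ⟨q, hq, b, hb, rfl⟩ m
  have h := (hV q hq).mul (hb m)
  rwa [show j + (d m - j) = d m by have := hd m; omega] at h

theorem hallRow : HallStatement := by
  intro K _ _ n c d y R hT hc hR hC Q' L' hQ hL
  have hy : y ≠ 0 := by
    rintro rfl
    exact zero_ne_one (hR.y0)
  have h1 := hall_x (d := d) (R := R) (x := y) hT.two hc hy (fun g hg => mem_STx.2 fun m =>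
      ⟨hR.le hg m, hR.van g hg m⟩) (by rw [ST_eq]; exact hR.dim.symm) (fun z hz hz0 => by
      rw [ST_eq, mulST_eq]
      exact hR.line z hz hz0) (fun q hq => by
      by_contra hq0
      refine hC q hq.1 hq0 ?_
      rw [← mulST_eq]
      exact mulST_le hq) hQ hL
  refine h1.trans ?_
  have hle : (R ⊔ (SP Q' (fun m => d m - 2) ⊔ SP L' (fun m => d m - 1)) :
      Submodule K (T3 K c)) ≤ T2C.ST K d := by
    refine sup_le hR.le (sup_le (SP_le hT.two fun q hq => (hQ q hq).1)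
      (SP_le (fun m => ?_) fun l hl => (hL l hl).1))
    have := hT.two m
    omega
  have hf : FiniteDimensional K (T2C.ST K d) := by
    rw [← ST_eq]
    infer_instance
  have hf2 : FiniteDimensional K (R ⊔ (SP Q' (fun m => d m - 2) ⊔ SP L' (fun m => d m - 1)) :
      Submodule K (T3 K c)) := Submodule.finiteDimensional_of_le hle
  exact Submodule.finrank_mono (sup_le_sup_left (mulQL_eq Q' L' d) R)

end

end Pool.Agent.T2C.H11
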