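import Pool.Agent.Lib.MP_c7af3c_ag.T2C.IfaceB
import Pool.Agent.Lib.MP_c7af3c_ag.T2C.H11.Hall

/-!
# MP_c7af3c_ag, project T2C: row Q2223, and the number of conditions for a plane in some of the
equations
-/

set_option autoImplicit false

namespace Pool.Agent.T2C.H11

open MvPolynomial Pool.Agent.Gen Pool.Agent.Sharp Pool.Agent.Edge
open Pool.Agent.T2 (S3 mulS mem_mulS)
open Pool.Agent.Sharp.H75 (dco DG)
open Pool.Agent.Edge.H65 (ssub ssub_hom ssub_surj pderiv_ssub dco_ssub)

section

variable {K : Type} [Field K] {n c : ℕ} {d : Fin c → ℕ}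

/-- the restriction of `e * F` to the plane, only the components in `s` -/
noncomputable def mvs (D : DSys K n c d) (P : Fin 3 → Fin (n + 1) → K) (s : Fin c → Prop)
    [DecidablePred s] : (Fin 3 → Fin (n + 1) → K) →ₗ[K] (Fin c → MvPolynomial (Fin 3) K) where
  toFun e m := if s m then ∑ p, ssub P (pderiv p (D.F m)) * ∑ i, C (e i p) * X i else 0
  map_add' e e' := by
    funext m
    rw [Pi.add_apply]
    split_ifs
    · rw [← Finset.sum_add_distrib]
      refine Finset.sum_congr rfl fun p _ => ?_
      rw [← mul_add, ← Finset.sum_add_distrib]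
      congr 1
      refine Finset.sum_congr rfl fun i _ => ?_
      rw [Pi.add_apply, Pi.add_apply, map_add, add_mul]
    · rw [add_zero]
  map_smul' r e := by
    funext m
    rw [Pi.smul_apply, RingHom.id_apply]
    split_ifs
    · rw [Finset.smul_sum]
      refine Finset.sum_congr rfl fun p _ => ?_
      rw [← mul_smul_comm, Finset.smul_sum]
      congr 1
      refine Finset.sum_congr rfl fun i _ => ?_
      rw [Pi.smul_apply, Pi.smul_apply, smul_eq_mul, map_mul, smul_eq_C_mul, mul_assoc]
    · rw [smul_zero]

/-- If the components in `s` contain a plane, the number of conditions is at most the dimension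
of the space of planes. -/
theorem plane_count (D : DSys K n c d) {P : Fin 3 → Fin (n + 1) → K}
    (hP : LinearIndependent K P) (s : Fin c → Prop) [DecidablePred s] (hs : ∀ m, s m → ssub P (D.F m) = 0) :
    (∑ m, if s m then (d m + 2).choose 2 else 0) + 9 ≤ 3 * (n + 1) := by
  set Φ := mvs D P s with hΦ
  set T : Submodule K (Fin c → MvPolynomial (Fin 3) K) :=
    Submodule.pi Set.univ fun m => if s m then S3 K (d m) else ⊥ with hT
  have hΦa : ∀ e m, Φ e m =
      if s m then ∑ p, ssub P (pderiv p (D.F m)) * ∑ i, C (e i p) * X i else 0 := fun _ _ => rfl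
  have h1 : T ≤ LinearMap.range Φ := by
    intro g hg
    have hg2 : ∀ m, g m ∈ (if s m then S3 K (d m) else ⊥ :
      Submodule K (MvPolynomial (Fin 3) K)) := fun m => hg m trivial
    have h2 : ∀ m, ∃ A : MvPolynomial (Fin (n + 1)) K, A.IsHomogeneous (d m) ∧
        ssub P A = g m := by
      intro m
      have h3 := hg2 m
      split_ifs at h3 with hm
      · exact ssub_surj P hP h3
      · rw [Submodule.mem_bot] at h3
        exact ⟨0, isHomogeneous_zero _ _ _, by rw [h3, map_zero]⟩
    choose A hA hA2 using h2
    refine ⟨fun i p => - DG D A (P i p), ?_⟩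
    funext m
    rw [hΦa]
    have h3 := hg2 m
    split_ifs at h3 ⊢ with hm
    · have h4 := dco_ssub P (DG D A) (D.F m)
      rw [hs m hm, Pool.Agent.Sharp.H75.dco_F D hA m, hA2] at h4
      have h5 : dco (DG D A) (0 : MvPolynomial (Fin 3) K) = 0 := by
        ext I
        rw [Pool.Agent.Sharp.H75.coeff_dco, coeff_zero, map_zero]
      rw [h5] at h4
      have h6 : ∑ p, ssub P (pderiv p (D.F m)) * ∑ i, C (- DG D A (P i p)) * X i =
          - ∑ p, ssub P (pderiv p (D.F m)) * ∑ i, C (DG D A (P i p)) * X i := by
        rw [← Finset.sum_neg_distrib]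
        refine Finset.sum_congr rfl fun p _ => ?_
        rw [← mul_neg, ← Finset.sum_neg_distrib]
        congr 1
        refine Finset.sum_congr rfl fun i _ => ?_
        rw [map_neg, neg_mul]
      rw [h6]
      linear_combination h4
    · rw [Submodule.mem_bot] at h3
      exact h3.symm
  -- the motions of the plane in itself
  set Λ : (Fin 3 → Fin 3 → K) →ₗ[K] (Fin 3 → Fin (n + 1) → K) :=
    { toFun := fun L i p => ∑ j, L i j * P j p
      map_add' := fun L L' => by
        funext i p
        simp only [Pi.add_apply, add_mul, Finset.sum_add_distrib]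
      map_smul' := fun r L => by
        funext i p
        simp only [Pi.smul_apply, smul_eq_mul, RingHom.id_apply, Finset.mul_sum, mul_assoc] }
    with hΛ
  have hΛa : ∀ L i p, Λ L i p = ∑ j, L i j * P j p := fun _ _ _ => rfl
  have hinj : Function.Injective Λ := by
    rw [injective_iff_map_eq_zero]
    intro L hL
    funext i
    have h2 : ∑ j, L i j • P j = 0 := by
      funext p
      rw [Finset.sum_apply, Pi.zero_apply]
      have := congrFun (congrFun hL i) p
      rw [hΛa] at this
      exact this
    funext j
    exact Fintype.linearIndependent_iff.1 hP (L i) h2 j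
  have h2 : LinearMap.range Λ ≤ LinearMap.ker Φ := by
    rintro _ ⟨L, rfl⟩
    rw [LinearMap.mem_ker]
    funext m
    rw [hΦa, Pi.zero_apply]
    split_ifs with hm
    · have h3 : ∀ j, ∑ p, C (P j p) * ssub P (pderiv p (D.F m)) = 0 := by
        intro j
        rw [← pderiv_ssub, hs m hm, map_zero]
      have h4 : ∑ p, ssub P (pderiv p (D.F m)) * ∑ i, C (Λ L i p) * X i =
          ∑ i, ∑ j, C (L i j) * X i * ∑ p, C (P j p) * ssub P (pderiv p (D.F m)) := by
        simp only [hΛa, map_sum, map_mul, Finset.mul_sum, Finset.sum_mul]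
        rw [Finset.sum_comm]
        refine Finset.sum_congr rfl fun i _ => ?_
        rw [Finset.sum_comm]
        refine Finset.sum_congr rfl fun j _ => Finset.sum_congr rfl fun p _ => ?_
        ring
      rw [h4]
      refine Finset.sum_eq_zero fun i _ => Finset.sum_eq_zero fun j _ => ?_
      rw [h3 j, mul_zero]
    · rfl
  have h3 := LinearMap.finrank_range_add_finrank_ker Φ
  have h4 := Submodule.finrank_mono h1
  have h5 := Submodule.finrank_mono h2
  have hfin : ∀ m : Fin c, FiniteDimensional K (if s m then S3 K (d m) else ⊥ :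
      Submodule K (MvPolynomial (Fin 3) K)) := by
    intro m
    by_cases hm : s m
    · rw [if_pos hm]; infer_instance
    · rw [if_neg hm]; infer_instance
  rw [hT, finrank_piS] at h4
  have h6 : ∀ m : Fin c, Module.finrank K (if s m then S3 K (d m) else ⊥ :
      Submodule K (MvPolynomial (Fin 3) K)) = if s m then (d m + 2).choose 2 else 0 := by
    intro m
    by_cases hm : s m
    · rw [if_pos hm, if_pos hm]; exact finrank_S3 (d m)
    · rw [if_neg hm, if_neg hm]; exact finrank_bot K _
  rw [Finset.sum_congr rfl fun m _ => h6 m] at h4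
  rw [LinearMap.finrank_range_of_inj hinj] at h5
  simp only [Module.finrank_pi_fintype, Module.finrank_self, Finset.sum_const, Finset.card_univ,
    Fintype.card_fin, smul_eq_mul] at h3 h5
  omega

theorem q2223 : Q2223Statement := by
  intro K _ _ n d D P hT hP
  by_contra hcon
  push Not at hcon
  have h1 := plane_count D hP (fun m => d m = 2) fun m hm => hcon m hm
  have hn := hT.hn
  have hs := hT.sum
  have h2 := hT.two
  subst hn
  simp only [Fin.sum_univ_four] at h1 hs
  have e : (2 + 2).choose 2 = 6 := by decide
  have a0 := h2 0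
  have a1 := h2 1
  have a2 := h2 2
  have a3 := h2 3
  have b : ∀ m, (if d m = 2 then (d m + 2).choose 2 else 0) = if d m = 2 then 6 else 0 := by
    intro m
    split_ifs with hm
    · rw [hm, e]
    · rfl
  simp only [b] at h1
  split_ifs at h1 <;> omega

end

end Pool.Agent.T2C.H11
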